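import Pool.Agent.H295R2.Z

/-!
# The truncated Mellin transform of a combination of fractional parts
-/

set_option autoImplicit false

namespace Pool.Agent.K3h81.NB

open MeasureTheory Set Filter Topology
open Pool.Agent.H295R2 (Zs Zt Hf fr)

set_option maxHeartbeats 1000000

noncomputable section

/-- the part of the fractional part function below `1` -/
def ind1 (θ : ℝ) (t : ℝ) : ℂ := (Ico θ 1).indicator (fun t : ℝ => (t : ℂ)) t

lemma fr_conv {s : ℂ} (hs : 0 < s.re) : MellinConvergent fr (-s) := by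
  refine mellinConvergent_of_isBigO_rpow (a := 0) (b := -s.re - 1) ?_ ?_ ?_ ?_ ?_
  · refine LocallyIntegrable.locallyIntegrableOn ?_ _
    refine LocallyIntegrable.mono (locallyIntegrable_const (1:ℝ)) H295R2.fr_measurable.aestronglyMeasurable ?_
    refine Eventually.of_forall fun t => ?_
    rw [norm_one]
    exact H295R2.fr_norm_le t
  · refine Asymptotics.IsBigO.of_bound 1 (Eventually.of_forall fun t => ?_)
    simp only [neg_zero, Real.rpow_zero, norm_one, mul_one]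
    exact H295R2.fr_norm_le t
  · simpa using hs
  · refine Asymptotics.IsBigO.of_bound 1 ?_
    have h2 : ∀ᶠ t : ℝ in 𝓝[>] 0, t < 1 := nhdsWithin_le_nhds (Iio_mem_nhds one_pos)
    filter_upwards [h2] with t ht
    have : fr t = 0 := by
      unfold Pool.Agent.H295R2.fr
      rw [indicator_of_notMem]
      simp only [mem_Ioi, not_lt]
      exact ht.le
    rw [this, norm_zero]
    positivity
  · simp

lemma ind1_conv {θ : ℝ} (hθ : 0 < θ) (s : ℂ) :
    MellinConvergent (ind1 θ) (-s) := by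
  unfold MellinConvergent
  have e1 : ∀ t : ℝ, (t : ℂ) ^ (-s - 1) • ind1 θ t =
      (Ico θ 1).indicator (fun t : ℝ => (t : ℂ) ^ (-s - 1) * (t : ℂ)) t := by
    intro t
    unfold ind1
    by_cases ht : t ∈ Ico θ 1
    · rw [indicator_of_mem ht, indicator_of_mem ht, smul_eq_mul]
    · rw [indicator_of_notMem ht, indicator_of_notMem ht, smul_zero]
  simp_rw [e1]
  refine Integrable.integrableOn ?_
  rw [integrable_indicator_iff measurableSet_Ico]
  refine IntegrableOn.mono_set (t := Icc θ 1) ?_ Ico_subset_Icc_self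
  refine ContinuousOn.integrableOn_compact isCompact_Icc ?_
  intro t ht
  have ht0 : 0 < t := lt_of_lt_of_le hθ ht.1
  refine ContinuousAt.continuousWithinAt ?_
  refine ContinuousAt.mul ?_ (by fun_prop)
  exact Complex.continuousAt_ofReal_cpow_const _ _ (Or.inr ht0.ne')

lemma ind1_mellin {θ : ℝ} (hθ : 0 < θ) (hθ1 : θ ≤ 1) (s : ℂ) :
    (s - 1) * mellin (ind1 θ) (-s) = (θ : ℂ) ^ (1 - s) - 1 := by
  have e1 : mellin (ind1 θ) (-s) = ∫ t in θ..1, (t : ℂ) ^ (-s) := by
    unfold mellin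
    have e2 : ∀ t : ℝ, (t : ℂ) ^ (-s - 1) • ind1 θ t =
        (Ico θ 1).indicator (fun t : ℝ => (t : ℂ) ^ (-s)) t := by
      intro t
      unfold ind1
      by_cases ht : t ∈ Ico θ 1
      · rw [indicator_of_mem ht, indicator_of_mem ht, smul_eq_mul]
        have ht0 : (t : ℂ) ≠ 0 := by
          have : 0 < t := lt_of_lt_of_le hθ ht.1
          exact_mod_cast this.ne'
        rw [Complex.cpow_sub _ _ ht0, Complex.cpow_one]
        field_simp
      · rw [indicator_of_notMem ht, indicator_of_notMem ht, smul_zero]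
    simp_rw [e2]
    rw [setIntegral_indicator measurableSet_Ico, intervalIntegral.integral_of_le hθ1,
      ← integral_Ico_eq_integral_Ioc]
    congr 2
    ext t
    simp only [mem_inter_iff, mem_Ioi, mem_Ico]
    constructor
    · rintro ⟨_, h⟩
      exact h
    · intro h
      exact ⟨lt_of_lt_of_le hθ h.1, h⟩
  rw [e1]
  by_cases hs : s = 1
  · subst hs
    simp
  · have h3 : (1 - s) ≠ 0 := sub_ne_zero.2 (Ne.symm hs)
    rw [integral_cpow (Or.inr ⟨by
      intro h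
      apply hs
      linear_combination -h, by
      rw [uIcc_of_le hθ1]
      intro h
      exact absurd h.1 (not_le.2 hθ)⟩)]
    have e3 : -s + 1 = 1 - s := by ring
    rw [e3, Complex.ofReal_one, Complex.one_cpow]
    field_simp
    ring

/-- the Mellin transform of `{θ / x}` over `(0, 1]` -/
lemma mt_fr {θ : ℝ} (hθ : 0 < θ) (hθ1 : θ ≤ 1) {s : ℂ} (hs : 0 < s.re) :
    IntegrableOn (fun x : ℝ => ((Int.fract (θ / x) : ℝ) : ℂ) * (x : ℂ) ^ (s - 1)) (Ioc 0 1) ∧
    s * (s - 1) * ∫ x in Ioc (0:ℝ) 1, ((Int.fract (θ / x) : ℝ) : ℂ) * (x : ℂ) ^ (s - 1) =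
      (θ : ℂ) * s - (θ : ℂ) ^ s * Zs s := by
  set G : ℝ → ℂ := fun t => fr t + ind1 θ t with hG
  have hGM : HasMellin G (-s) (mellin fr (-s) + mellin (ind1 θ) (-s)) :=
    hasMellin_add (fr_conv hs) (ind1_conv hθ s)
  have hpt : ∀ x ∈ Ioi (0:ℝ), (x : ℂ) ^ (s - 1) • (fun x : ℝ => (fun t => G t⁻¹) (θ⁻¹ * x)) x =
      (Ioc (0:ℝ) 1).indicator (fun x : ℝ => ((Int.fract (θ / x) : ℝ) : ℂ) * (x : ℂ) ^ (s - 1)) x := by
    intro x hx
    have hx0 : 0 < x := hx
    have e1 : (θ⁻¹ * x)⁻¹ = θ / x := by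
      rw [mul_inv, inv_inv, div_eq_mul_inv]
    simp only [e1, smul_eq_mul]
    rw [hG]
    simp only
    unfold ind1 Pool.Agent.H295R2.fr
    rcases le_or_gt x 1 with h | h
    · rw [indicator_of_mem (show x ∈ Ioc (0:ℝ) 1 from ⟨hx0, h⟩)]
      have h1 : θ ≤ θ / x := by
        rw [le_div_iff₀ hx0]
        nlinarith
      rcases lt_trichotomy (θ / x) 1 with h2 | h2 | h2
      · rw [indicator_of_notMem (by simpa using h2.le), indicator_of_mem (show θ / x ∈ Ico θ 1 from ⟨h1, h2⟩)]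
        rw [Int.fract_eq_self.mpr ⟨by positivity, h2⟩]
        ring
      · rw [h2, indicator_of_notMem (by simp), indicator_of_notMem (by simp)]
        simp
      · rw [indicator_of_mem (show θ / x ∈ Ioi (1:ℝ) from h2), indicator_of_notMem (by
          intro h3
          exact absurd h3.2 (not_lt.2 h2.le))]
        ring
    · rw [indicator_of_notMem (show x ∉ Ioc (0:ℝ) 1 from fun h3 => absurd h3.2 (not_le.2 h))]
      have h1 : θ / x < θ := by
        rw [div_lt_iff₀ hx0]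
        nlinarith
      rw [indicator_of_notMem (by simpa using (h1.le.trans hθ1)), indicator_of_notMem (by
        intro h3
        exact absurd h3.1 (not_le.2 h1))]
      simp
  have hpos : 0 < θ⁻¹ := inv_pos.2 hθ
  have hc2 : MellinConvergent (fun t : ℝ => G t⁻¹) s := by
    have h3 := (MellinConvergent.comp_rpow (f := G) (s := s) (a := -1) (by norm_num)).2 (by
      have e : s / ((-1 : ℝ) : ℂ) = -s := by push_cast; ring
      rw [e]
      exact hGM.1)
    have e4 : (fun t : ℝ => G (t ^ (-1 : ℝ))) = fun t : ℝ => G t⁻¹ := by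
      ext t
      rw [Real.rpow_neg_one]
    rwa [e4] at h3
  have hconv : MellinConvergent (fun x : ℝ => (fun t => G t⁻¹) (θ⁻¹ * x)) s :=
    (MellinConvergent.comp_mul_left (f := fun t => G t⁻¹) hpos).2 hc2
  have hval : mellin (fun x : ℝ => (fun t => G t⁻¹) (θ⁻¹ * x)) s =
      (θ : ℂ) ^ s * (Hf s + mellin (ind1 θ) (-s)) := by
    rw [mellin_comp_mul_left (fun t => G t⁻¹) s hpos, mellin_comp_inv, hGM.2, smul_eq_mul]
    have e2 : (((θ⁻¹ : ℝ) : ℂ)) ^ (-s) = (θ : ℂ) ^ s := by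
      rw [Complex.ofReal_inv, Complex.inv_cpow _ _ (by
        rw [Complex.arg_ofReal_of_nonneg hθ.le]; exact Real.pi_pos.ne), Complex.cpow_neg, inv_inv]
    rw [e2]
    rfl
  have hI : Ioc (0:ℝ) 1 ⊆ Ioi 0 := Ioc_subset_Ioi_self
  constructor
  · have h4 : IntegrableOn (fun x : ℝ => (x : ℂ) ^ (s - 1) • (fun x : ℝ => (fun t => G t⁻¹) (θ⁻¹ * x)) x) (Ioc 0 1) :=
      hconv.mono_set hI
    refine h4.congr_fun ?_ measurableSet_Ioc
    intro x hx
    have h9 := hpt x (hI hx)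
    rw [indicator_of_mem hx] at h9
    exact h9
  · have h5 : ∫ x in Ioc (0:ℝ) 1, ((Int.fract (θ / x) : ℝ) : ℂ) * (x : ℂ) ^ (s - 1) =
        mellin (fun x : ℝ => (fun t => G t⁻¹) (θ⁻¹ * x)) s := by
      unfold mellin
      rw [setIntegral_congr_fun measurableSet_Ioi hpt, setIntegral_indicator measurableSet_Ioc,
        inter_eq_self_of_subset_right hI]
    rw [h5, hval, H295R2.Zs_eq_Zt hs]
    unfold Pool.Agent.H295R2.Zt
    have h6 := ind1_mellin hθ hθ1 s
    have hθc : (θ : ℂ) ≠ 0 := by exact_mod_cast hθ.ne'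
    have h7 : (θ : ℂ) ^ s * (θ : ℂ) ^ (1 - s) = θ := by
      rw [← Complex.cpow_add _ _ hθc]
      simp
    linear_combination (s * (θ : ℂ) ^ s) * h6 + s * h7

variable {ι : Type*}

/-- the error function of a combination of fractional parts -/
def hE (S : Finset ι) (a θ : ι → ℝ) (x : ℝ) : ℝ := 1 - ∑ k ∈ S, a k * Int.fract (θ k / x)

/-- the Dirichlet polynomial of a combination of fractional parts -/
def Dd (S : Finset ι) (a θ : ι → ℝ) (s : ℂ) : ℂ := ∑ k ∈ S, (a k : ℂ) * (θ k : ℂ) ^ s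

/-- the entire function `s (s - 1) ∫ h x^(s-1)` -/
def Psi (S : Finset ι) (a θ : ι → ℝ) (s : ℂ) : ℂ :=
  (s - 1) + Zs s * Dd S a θ s - ((∑ k ∈ S, a k * θ k : ℝ) : ℂ) * s

lemma hE_meas (S : Finset ι) (a θ : ι → ℝ) : Measurable (hE S a θ) := by
  unfold hE
  refine Measurable.sub measurable_const ?_
  refine Finset.measurable_sum _ fun n _ => ?_
  refine Measurable.const_mul ?_ _
  exact measurable_fract.comp (by fun_prop)

lemma hE_abs (S : Finset ι) (a θ : ι → ℝ) (x : ℝ) : |hE S a θ x| ≤ 1 + ∑ k ∈ S, |a k| := by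
  unfold hE
  refine (abs_sub _ _).trans ?_
  rw [abs_one]
  refine add_le_add le_rfl ((Finset.abs_sum_le_sum_abs _ _).trans (Finset.sum_le_sum fun k _ => ?_))
  rw [abs_mul, abs_of_nonneg (a := Int.fract (θ k / x)) (Int.fract_nonneg _)]
  have := (Int.fract_lt_one (θ k / x)).le
  nlinarith [abs_nonneg (a k)]

lemma psi_eq {S : Finset ι} {a θ : ι → ℝ} (h0 : ∀ k ∈ S, 0 < θ k) (h1 : ∀ k ∈ S, θ k ≤ 1)
    {s : ℂ} (hs : 0 < s.re) :
    s * (s - 1) * ∫ x in Ioc (0:ℝ) 1, ((hE S a θ x : ℝ) : ℂ) * (x : ℂ) ^ (s - 1) = Psi S a θ s := by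
  have hs0 : s ≠ 0 := by rintro rfl; simp at hs
  have hm1 : (-1 : ℝ) < (s - 1).re := by simpa using hs
  have hi1 : IntegrableOn (fun x : ℝ => (x : ℂ) ^ (s - 1)) (Ioc 0 1) := by
    rw [← intervalIntegrable_iff_integrableOn_Ioc_of_le zero_le_one]
    exact intervalIntegral.intervalIntegrable_cpow' hm1
  have hI1 : ∫ x in Ioc (0:ℝ) 1, (x : ℂ) ^ (s - 1) = 1 / s := by
    rw [← intervalIntegral.integral_of_le zero_le_one, integral_cpow (Or.inl hm1)]
    simp [hs0]
  have e1 : ∀ x : ℝ, ((hE S a θ x : ℝ) : ℂ) * (x : ℂ) ^ (s - 1) = (x : ℂ) ^ (s - 1) -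
      ∑ k ∈ S, (a k : ℂ) * (((Int.fract (θ k / x) : ℝ) : ℂ) * (x : ℂ) ^ (s - 1)) := by
    intro x
    unfold hE
    push_cast
    rw [sub_mul, one_mul, Finset.sum_mul]
    congr 1
    refine Finset.sum_congr rfl fun k _ => ?_
    ring
  simp_rw [e1]
  rw [integral_sub hi1 (integrable_finsetSum _ fun k hk => ((mt_fr (h0 k hk) (h1 k hk) hs).1.const_mul _)),
    hI1, integral_finsetSum _ fun k hk => ((mt_fr (h0 k hk) (h1 k hk) hs).1.const_mul _)]
  simp_rw [integral_const_mul]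
  unfold Psi Dd
  rw [mul_sub, Finset.mul_sum]
  have e2 : ∀ k ∈ S, s * (s - 1) * ((a k : ℂ) * ∫ x in Ioc (0:ℝ) 1, ((Int.fract (θ k / x) : ℝ) : ℂ) * (x : ℂ) ^ (s - 1)) =
      (a k : ℂ) * ((θ k : ℂ) * s - (θ k : ℂ) ^ s * Zs s) := by
    intro k hk
    rw [← (mt_fr (h0 k hk) (h1 k hk) hs).2]
    ring
  rw [Finset.sum_congr rfl e2]
  push_cast
  have e3 : s * (s - 1) * (1 / s) = s - 1 := by field_simp
  rw [e3]
  simp_rw [mul_sub]
  rw [Finset.sum_sub_distrib, Finset.mul_sum, Finset.sum_mul]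
  have e4 : ∑ k ∈ S, (a k : ℂ) * ((θ k : ℂ) * s) = ∑ k ∈ S, (a k : ℂ) * (θ k : ℂ) * s :=
    Finset.sum_congr rfl fun k _ => by ring
  have e5 : ∑ k ∈ S, (a k : ℂ) * ((θ k : ℂ) ^ s * Zs s) = ∑ k ∈ S, Zs s * ((a k : ℂ) * (θ k : ℂ) ^ s) :=
    Finset.sum_congr rfl fun k _ => by ring
  rw [e4, e5]
  ring

end

end Pool.Agent.K3h81.NB
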