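import Pool.Agent.K3h81.NB.E1
import Pool.Agent.H448R2.GC.X2

/-!
# Bounds for the Dirichlet polynomial and for `Psi` on vertical lines
-/

set_option autoImplicit false

namespace Pool.Agent.K3h81.NB

open MeasureTheory Set Filter Topology
open Pool.Agent.H295R2 (Zs)

set_option maxHeartbeats 1000000

noncomputable section

lemma Zs_growth (X : ℝ) : ∃ (C : ℝ) (B : ℕ), 0 < C ∧ ∀ s : ℂ, -X ≤ s.re → s.re ≤ 3 →
    ‖Zs s‖ ≤ C * (1 + |s.im|) ^ B := by
  obtain ⟨C, B, hC, h⟩ := H448R2.GC.zeta_one_growth X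
  refine ⟨C, B, hC, fun s h1 h2 => ?_⟩
  have h3 := h s h1 h2
  by_cases hs : s = 1
  · rw [hs] at h3 ⊢
    rw [Function.update_self] at h3
    have : Zs 1 = 1 := by
      show riemannZeta₁ 1 = 1
      exact riemannZeta₁_one
    rw [this]
    exact h3
  · rw [Function.update_of_ne hs, H295R2.Zs_eq hs] at h3
    exact h3

/-- the Mellin transform over `(0, 1]` against the `L^p` norm -/
lemma H_bound {p α : ℝ} (hp : 1 ≤ p) (hα : 1 / p < α) : ∃ C : ℝ, 0 < C ∧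
    ∀ (h : ℝ → ℝ) (K E : ℝ), Measurable h → (∀ x, |h x| ≤ K) → 0 < E →
      ∫ x in Ioc (0:ℝ) 1, |h x| ^ p ≤ E ^ p → ∀ s : ℂ, s.re = α →
      ‖∫ x in Ioc (0:ℝ) 1, ((h x : ℝ) : ℂ) * (x : ℂ) ^ (s - 1)‖ ≤ C * E := by
  have hp0 : 0 < p := by linarith
  have hnorm : ∀ (h : ℝ → ℝ) (s : ℂ) (x : ℝ), s.re = α → 0 < x →
      ‖((h x : ℝ) : ℂ) * (x : ℂ) ^ (s - 1)‖ = |h x| * x ^ (α - 1) := by
    intro h s x hs hx
    rw [norm_mul, Complex.norm_real, Real.norm_eq_abs, Complex.norm_cpow_eq_rpow_re_of_pos hx]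
    simp [hs]
  rcases eq_or_lt_of_le hp with h1 | h1
  · refine ⟨1, one_pos, fun h K E hm hK hE hI s hs => ?_⟩
    subst h1
    simp only [Real.rpow_one] at hI
    rw [div_one] at hα
    rw [one_mul]
    have hi : IntegrableOn (fun x => |h x|) (Ioc 0 1) :=
      Measure.integrableOn_of_bounded (M := K) (by simp) hm.abs.aestronglyMeasurable
        (Eventually.of_forall fun x => by rw [Real.norm_eq_abs, abs_abs]; exact hK x)
    refine le_trans (norm_integral_le_of_norm_le hi ?_) hI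
    refine (ae_restrict_mem measurableSet_Ioc).mono fun x hx => ?_
    rw [hnorm h s x hs hx.1]
    have h2 : x ^ (α - 1) ≤ 1 := Real.rpow_le_one hx.1.le hx.2 (by linarith)
    have h3 : 0 ≤ x ^ (α - 1) := Real.rpow_nonneg hx.1.le _
    nlinarith [abs_nonneg (h x)]
  · have hpq : p.HolderConjugate (p / (p - 1)) := Real.HolderConjugate.conjExponent h1
    set q : ℝ := p / (p - 1) with hq
    have hp1 : 0 < p - 1 := by linarith
    have hq0 : 0 < q := by positivity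
    have hexp : -1 < (α - 1) * q := by
      rw [hq]
      have h2 : 1 < α * p := by
        rwa [div_lt_iff₀ hp0] at hα
      rw [← mul_div_assoc, lt_div_iff₀ hp1]
      nlinarith
    have hi2 : IntegrableOn (fun x : ℝ => x ^ ((α - 1) * q)) (Ioc 0 1) := by
      rw [← intervalIntegrable_iff_integrableOn_Ioc_of_le zero_le_one]
      exact intervalIntegral.intervalIntegrable_rpow' hexp
    have hv : ∫ x in Ioc (0:ℝ) 1, x ^ ((α - 1) * q) = 1 / ((α - 1) * q + 1) := by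
      rw [← intervalIntegral.integral_of_le zero_le_one, integral_rpow (Or.inl hexp)]
      rw [Real.one_rpow, Real.zero_rpow (by linarith), sub_zero]
    refine ⟨1 + 1 / ((α - 1) * q + 1), by
      have : 0 < (α - 1) * q + 1 := by linarith
      positivity, fun h K E hm hK hE hI s hs => ?_⟩
    have hi : IntegrableOn (fun x => |h x| ^ p) (Ioc 0 1) := by
      refine Measure.integrableOn_of_bounded (M := K ^ p) (by simp) (hm.abs.pow_const p).aestronglyMeasurable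
        (Eventually.of_forall fun x => ?_)
      rw [Real.norm_of_nonneg (by positivity)]
      exact Real.rpow_le_rpow (abs_nonneg _) (hK x) hp0.le
    have hbd : ∀ᵐ x ∂(volume.restrict (Ioc (0:ℝ) 1)), ‖((h x : ℝ) : ℂ) * (x : ℂ) ^ (s - 1)‖ ≤
        E * ((E ^ p)⁻¹ * |h x| ^ p + x ^ ((α - 1) * q)) := by
      refine (ae_restrict_mem measurableSet_Ioc).mono fun x hx => ?_
      rw [hnorm h s x hs hx.1]
      have hx0 := hx.1
      have h3 : 0 ≤ x ^ (α - 1) := Real.rpow_nonneg hx0.le _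
      have h4 := Real.young_inequality_of_nonneg (a := |h x| / E) (b := x ^ (α - 1)) (by positivity) h3 hpq
      have h5 : (|h x| / E) ^ p / p ≤ (E ^ p)⁻¹ * |h x| ^ p := by
        rw [Real.div_rpow (abs_nonneg _) hE.le]
        have h6 : 0 ≤ |h x| ^ p / E ^ p := by positivity
        calc |h x| ^ p / E ^ p / p ≤ |h x| ^ p / E ^ p := div_le_self h6 hp
          _ = _ := by rw [div_eq_mul_inv, mul_comm]
      have h6 : (x ^ (α - 1)) ^ q / q ≤ x ^ ((α - 1) * q) := by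
        rw [← Real.rpow_mul hx0.le]
        exact div_le_self (Real.rpow_nonneg hx0.le _) hpq.symm.lt.le
      calc |h x| * x ^ (α - 1) = E * (|h x| / E * x ^ (α - 1)) := by field_simp
        _ ≤ _ := by
          refine mul_le_mul_of_nonneg_left ?_ hE.le
          linarith
    refine (norm_integral_le_of_norm_le (((hi.const_mul _).add hi2).const_mul E) hbd).trans ?_
    have e1 : ∫ x in Ioc (0:ℝ) 1, E * ((E ^ p)⁻¹ * |h x| ^ p + x ^ ((α - 1) * q)) =
        E * ((E ^ p)⁻¹ * (∫ x in Ioc (0:ℝ) 1, |h x| ^ p) + 1 / ((α - 1) * q + 1)) := by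
      rw [integral_const_mul, integral_add (hi.const_mul _) hi2, integral_const_mul, hv]
    have hEp : 0 < E ^ p := Real.rpow_pos_of_pos hE p
    refine le_trans (le_of_eq ?_) (show E * ((E ^ p)⁻¹ * (∫ x in Ioc (0:ℝ) 1, |h x| ^ p) + 1 / ((α - 1) * q + 1)) ≤ _ from ?_)
    · rw [← e1]
      rfl
    · have h7 : (E ^ p)⁻¹ * (∫ x in Ioc (0:ℝ) 1, |h x| ^ p) ≤ 1 := by
        rw [inv_mul_le_iff₀ hEp]
        linarith
      rw [mul_comm]
      exact mul_le_mul_of_nonneg_right (by linarith) hE.le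

variable {ι : Type*}

lemma Dd_diff {S : Finset ι} {a θ : ι → ℝ} (h0 : ∀ k ∈ S, 0 < θ k) : Differentiable ℂ (Dd S a θ) := by
  unfold Dd
  refine Differentiable.fun_sum fun k hk => ?_
  refine Differentiable.const_mul ?_ _
  refine Differentiable.const_cpow differentiable_id ?_
  left
  exact_mod_cast (h0 k hk).ne'

lemma inv_zeta_two : ∃ M : ℝ, 0 < M ∧ ∀ s : ℂ, s.re = 2 → ‖s - 1‖ ≤ M * ‖Zs s‖ := by
  set f : ℕ → ℝ := fun n => 1 / (n:ℝ) ^ (2:ℕ) with hf
  have hs : Summable f := Real.summable_one_div_nat_pow.2 (by norm_num)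
  refine ⟨∑' n, f n + 1, by
    have : 0 ≤ ∑' n, f n := tsum_nonneg fun n => by rw [hf]; positivity
    linarith, fun s h2 => ?_⟩
  have h1 := H295R2.moebius_lseries (s := s) (by rw [h2]; norm_num)
  have hne : Zs s ≠ 0 := H295R2.Zs_ne_zero_of_one_le (by rw [h2]; norm_num)
  have h3 : ‖H295R2.fz s‖ ≤ ∑' n, f n := by
    rw [← h1.LSeries_eq]
    unfold LSeries
    refine tsum_of_norm_bounded hs.hasSum fun n => ?_
    rcases Nat.eq_zero_or_pos n with hn | hn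
    · rw [hn, LSeries.term_zero, norm_zero, hf]
      positivity
    · rw [LSeries.term_of_ne_zero hn.ne', norm_div, Complex.norm_natCast_cpow_of_pos hn, h2, hf]
      simp only
      have h4 : ‖((ArithmeticFunction.moebius n : ℤ) : ℂ)‖ ≤ 1 := by
        rw [Complex.norm_intCast]
        have := ArithmeticFunction.abs_moebius_le_one (n := n)
        exact_mod_cast this
      have h5 : (n:ℝ) ^ (2:ℝ) = (n:ℝ) ^ (2:ℕ) := by norm_num
      rw [h5]
      exact div_le_div_of_nonneg_right h4 (by positivity)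
  unfold Pool.Agent.H295R2.fz at h3
  rw [norm_div, div_le_iff₀ (norm_pos_iff.2 hne)] at h3
  nlinarith [norm_nonneg (Zs s)]

/-- the Dirichlet polynomial on the line `Re s = 2` -/
lemma Dd_two {p : ℝ} (hp : 1 ≤ p) : ∃ C : ℝ, 0 < C ∧ ∀ (ι : Type) (S : Finset ι) (a θ : ι → ℝ) (E : ℝ),
    (∀ k ∈ S, 0 < θ k) → (∀ k ∈ S, θ k ≤ 1) → 0 < E → E ≤ 1 →
    ∫ x in Ioc (0:ℝ) 1, |hE S a θ x| ^ p ≤ E ^ p → ∀ s : ℂ, s.re = 2 →
    ‖Dd S a θ s‖ ≤ C * (1 + |∑ k ∈ S, a k * θ k|) * ‖s - 4‖ := by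
  have hp0 : 0 < p := by linarith
  obtain ⟨C1, hC1, hH⟩ := H_bound (p := p) (α := 2) hp (by
    rw [div_lt_iff₀ hp0]; linarith)
  obtain ⟨M, hM, hz⟩ := inv_zeta_two
  refine ⟨M * (3 * C1 + 3), by positivity, fun ι S a θ E h0 h1 hE0 hE1 hI s hs => ?_⟩
  set A : ℝ := ∑ k ∈ S, a k * θ k with hA
  have h2 := hH (hE S a θ) _ E (hE_meas S a θ) (hE_abs S a θ) hE0 hI s hs
  have h3 := psi_eq (a := a) h0 h1 (s := s) (by rw [hs]; norm_num)
  have hne : Zs s ≠ 0 := H295R2.Zs_ne_zero_of_one_le (by rw [hs]; norm_num)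
  have hz1 := hz s hs
  have n1 : 1 ≤ ‖s - 1‖ := by
    have := Complex.abs_re_le_norm (s - 1)
    rw [Complex.sub_re, hs, Complex.one_re] at this
    norm_num at this
    exact this
  have n4 : 2 ≤ ‖s - 4‖ := by
    have := Complex.abs_re_le_norm (s - 4)
    rw [Complex.sub_re, hs] at this
    norm_num at this
    exact this
  have n2 : ‖s‖ ≤ ‖s - 1‖ + 1 := by
    have := norm_add_le (s - 1) 1
    simpa using this
  have n3 : ‖s‖ ≤ ‖s - 4‖ + 4 := by
    have := norm_add_le (s - 4) 4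
    simpa using this
  have h4 : Zs s * Dd S a θ s = Psi S a θ s - (s - 1) + (A : ℂ) * s := by
    unfold Psi
    ring
  have h5 : ‖Psi S a θ s‖ ≤ ‖s‖ * ‖s - 1‖ * (C1 * 1) := by
    rw [← h3, norm_mul, norm_mul]
    exact mul_le_mul_of_nonneg_left (h2.trans (mul_le_mul_of_nonneg_left hE1 hC1.le)) (by positivity)
  have h6 : ‖Zs s‖ * ‖Dd S a θ s‖ ≤ ‖s‖ * ‖s - 1‖ * (C1 * 1) + ‖s - 1‖ + |A| * ‖s‖ := by
    rw [← norm_mul, h4]
    refine (norm_add_le _ _).trans (add_le_add ((norm_sub_le _ _).trans (add_le_add h5 le_rfl)) ?_)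
    rw [norm_mul, Complex.norm_real, Real.norm_eq_abs]
  have h7 : ‖s - 1‖ * ‖Dd S a θ s‖ ≤ M * (‖s‖ * ‖s - 1‖ * (C1 * 1) + ‖s - 1‖ + |A| * ‖s‖) := by
    calc ‖s - 1‖ * ‖Dd S a θ s‖ ≤ M * ‖Zs s‖ * ‖Dd S a θ s‖ :=
          mul_le_mul_of_nonneg_right hz1 (norm_nonneg _)
      _ = M * (‖Zs s‖ * ‖Dd S a θ s‖) := by ring
      _ ≤ _ := mul_le_mul_of_nonneg_left h6 hM.le
  have h8 : M * (‖s‖ * ‖s - 1‖ * (C1 * 1) + ‖s - 1‖ + |A| * ‖s‖) ≤
      ‖s - 1‖ * (M * (3 * C1 + 3) * (1 + |A|) * ‖s - 4‖) := by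
    have hAn := abs_nonneg A
    have e1 : ‖s‖ ≤ 3 * ‖s - 4‖ := by linarith
    have e2 : ‖s‖ ≤ 2 * ‖s - 1‖ := by linarith
    have t1 : ‖s‖ * ‖s - 1‖ * (C1 * 1) ≤ ‖s - 1‖ * (3 * C1 * (1 + |A|) * ‖s - 4‖) := by
      have : ‖s‖ * C1 ≤ 3 * C1 * (1 + |A|) * ‖s - 4‖ := by
        calc ‖s‖ * C1 ≤ (3 * ‖s - 4‖) * C1 := mul_le_mul_of_nonneg_right e1 hC1.le
          _ = 3 * C1 * 1 * ‖s - 4‖ := by ring
          _ ≤ _ := by gcongr; linarith
      calc ‖s‖ * ‖s - 1‖ * (C1 * 1) = ‖s - 1‖ * (‖s‖ * C1) := by ring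
        _ ≤ _ := mul_le_mul_of_nonneg_left this (norm_nonneg _)
    have t2 : ‖s - 1‖ ≤ ‖s - 1‖ * ((1 + |A|) * ‖s - 4‖) := by
      have : 1 ≤ (1 + |A|) * ‖s - 4‖ := by nlinarith
      nlinarith [norm_nonneg (s - 1)]
    have t3 : |A| * ‖s‖ ≤ ‖s - 1‖ * (2 * (1 + |A|) * ‖s - 4‖) := by
      calc |A| * ‖s‖ ≤ |A| * (2 * ‖s - 1‖) := mul_le_mul_of_nonneg_left e2 hAn
        _ = ‖s - 1‖ * (2 * |A| * 1) := by ring
        _ ≤ ‖s - 1‖ * (2 * (1 + |A|) * ‖s - 4‖) := by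
            refine mul_le_mul_of_nonneg_left ?_ (norm_nonneg _)
            have : 2 * |A| * 1 ≤ 2 * (1 + |A|) * 1 := by linarith
            refine this.trans ?_
            refine mul_le_mul_of_nonneg_left (by linarith) (by positivity)
    have := add_le_add (add_le_add t1 t2) t3
    calc M * (‖s‖ * ‖s - 1‖ * (C1 * 1) + ‖s - 1‖ + |A| * ‖s‖) ≤
          M * (‖s - 1‖ * (3 * C1 * (1 + |A|) * ‖s - 4‖) + ‖s - 1‖ * ((1 + |A|) * ‖s - 4‖) +
            ‖s - 1‖ * (2 * (1 + |A|) * ‖s - 4‖)) := mul_le_mul_of_nonneg_left this hM.le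
      _ = _ := by ring
  exact le_of_mul_le_mul_left (h7.trans h8) (by linarith)

end

end Pool.Agent.K3h81.NB
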