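import Pool.Agent.K3h81.NB.E2

/-!
# Phragmén-Lindelöf for the Dirichlet polynomial
-/

set_option autoImplicit false

namespace Pool.Agent.K3h81.NB

open MeasureTheory Set Filter Topology
open Pool.Agent.H295R2 (Zs)

set_option maxHeartbeats 1000000

noncomputable section

/-- the Dirichlet polynomial to the left of `Re s = 2` -/
lemma Dd_left {p : ℝ} (hp : 1 ≤ p) : ∃ C : ℝ, 0 < C ∧ ∀ (ι : Type) (S : Finset ι) (a θ : ι → ℝ) (E lam : ℝ),
    0 < lam → lam ≤ 1 → (∀ k ∈ S, lam ≤ θ k) → (∀ k ∈ S, θ k ≤ 1) → 0 < E → E ≤ 1 →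
    ∫ x in Ioc (0:ℝ) 1, |hE S a θ x| ^ p ≤ E ^ p → ∀ s : ℂ, s.re ≤ 2 →
    ‖Dd S a θ s‖ ≤ C * (1 + |∑ k ∈ S, a k * θ k|) * ‖s - 4‖ * lam ^ (s.re - 2) := by
  obtain ⟨C, hC, hD⟩ := Dd_two hp
  refine ⟨C, hC, fun ι S a θ E lam hl hl1 hlθ h1 hE0 hE1 hI s hs => ?_⟩
  have h0 : ∀ k ∈ S, 0 < θ k := fun k hk => hl.trans_le (hlθ k hk)
  have hedge := hD ι S a θ E h0 h1 hE0 hE1 hI
  set A : ℝ := ∑ k ∈ S, a k * θ k with hA
  have hlc : (lam : ℂ) ≠ 0 := by exact_mod_cast hl.ne'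
  set f : ℂ → ℂ := fun z => Dd S a θ (2 - z) * (lam : ℂ) ^ (z - 2) / (-2 - z) with hf
  have hlam : ∀ z : ℂ, ‖(lam : ℂ) ^ (z - 2)‖ = lam ^ (z.re - 2) := by
    intro z
    rw [Complex.norm_cpow_eq_rpow_re_of_pos hl]
    simp
  have hden : ∀ z : ℂ, 0 ≤ z.re → 2 ≤ ‖-2 - z‖ := by
    intro z hz
    have h2 := Complex.abs_re_le_norm (-2 - z)
    have h3 : (-2 - z).re = -(2 + z.re) := by simp; ring
    rw [h3, abs_neg, abs_of_nonneg (by linarith)] at h2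
    linarith
  have hbd : ∀ z : ℂ, 0 ≤ z.re → ‖f z‖ ≤ (∑ k ∈ S, |a k|) * lam ^ (-2 : ℝ) / 2 := by
    intro z hz
    rw [hf]
    simp only
    rw [norm_div, norm_mul, hlam]
    have h2 : ‖Dd S a θ (2 - z)‖ * lam ^ (z.re - 2) ≤ (∑ k ∈ S, |a k|) * lam ^ (-2 : ℝ) := by
      unfold Dd
      refine (mul_le_mul_of_nonneg_right (norm_sum_le _ _) (Real.rpow_nonneg hl.le _)).trans ?_
      rw [Finset.sum_mul, Finset.sum_mul]
      refine Finset.sum_le_sum fun k hk => ?_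
      rw [norm_mul, Complex.norm_real, Real.norm_eq_abs, Complex.norm_cpow_eq_rpow_re_of_pos (h0 k hk), mul_assoc]
      refine mul_le_mul_of_nonneg_left ?_ (abs_nonneg _)
      have h3 : (2 - z).re = 2 - z.re := by simp
      rw [h3]
      rcases le_or_gt z.re 2 with h4 | h4
      · have h5 : θ k ^ (2 - z.re) ≤ 1 := Real.rpow_le_one (h0 k hk).le (h1 k hk) (by linarith)
        have h6 : lam ^ (z.re - 2) ≤ lam ^ (-2 : ℝ) :=
          Real.rpow_le_rpow_of_exponent_ge hl hl1 (by linarith)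
        have h7 : 0 ≤ lam ^ (z.re - 2) := Real.rpow_nonneg hl.le _
        calc θ k ^ (2 - z.re) * lam ^ (z.re - 2) ≤ 1 * lam ^ (z.re - 2) := mul_le_mul_of_nonneg_right h5 h7
          _ ≤ _ := by rw [one_mul]; exact h6
      · have h5 : θ k ^ (2 - z.re) ≤ lam ^ (2 - z.re) :=
          Real.rpow_le_rpow_of_nonpos hl (hlθ k hk) (by linarith)
        have h7 : 0 ≤ lam ^ (z.re - 2) := Real.rpow_nonneg hl.le _
        calc θ k ^ (2 - z.re) * lam ^ (z.re - 2) ≤ lam ^ (2 - z.re) * lam ^ (z.re - 2) :=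
              mul_le_mul_of_nonneg_right h5 h7
          _ = lam ^ (0:ℝ) := by
              rw [← Real.rpow_add hl]
              congr 1
              ring
          _ ≤ lam ^ (-2 : ℝ) := Real.rpow_le_rpow_of_exponent_ge hl hl1 (by norm_num)
    exact div_le_div₀ (by positivity) h2 (by norm_num) (hden z hz)
  have hfd : DiffContOnCl ℂ f {z : ℂ | 0 < z.re} := by
    have hopen : ∀ z : ℂ, 0 ≤ z.re → DifferentiableAt ℂ f z := by
      intro z hz
      rw [hf]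
      refine DifferentiableAt.div ?_ (by fun_prop) ?_
      · refine DifferentiableAt.mul ?_ ?_
        · exact ((Dd_diff h0) (2 - z)).comp z (by fun_prop)
        · refine DifferentiableAt.const_cpow (by fun_prop) (Or.inl hlc)
      · intro h2
        have h3 := hden z hz
        rw [h2, norm_zero] at h3
        linarith
    refine ⟨fun z hz => (hopen z (le_of_lt hz)).differentiableWithinAt, fun z hz => ?_⟩
    refine (hopen z ?_).continuousAt.continuousWithinAt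
    have : closure {z : ℂ | 0 < z.re} ⊆ {z : ℂ | 0 ≤ z.re} := by
      refine closure_minimal (fun z (hz : 0 < z.re) => (le_of_lt hz : 0 ≤ z.re)) ?_
      exact isClosed_le continuous_const Complex.continuous_re
    exact this hz
  have hkey : ∀ z : ℂ, 0 ≤ z.re → ‖f z‖ ≤ C * (1 + |A|) * lam ^ (-2 : ℝ) := by
    intro z hz
    refine PhragmenLindelof.right_half_plane_of_bounded_on_real hfd ⟨1, by norm_num, 0, ?_⟩ ?_ ?_ hz
    · refine Asymptotics.IsBigO.of_bound ((∑ k ∈ S, |a k|) * lam ^ (-2 : ℝ) / 2) ?_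
      refine eventually_inf_principal.2 (Eventually.of_forall fun w hw => ?_)
      have hw' : 0 < w.re := hw
      simpa using hbd w hw'.le
    · refine isBoundedUnder_of_eventually_le (a := (∑ k ∈ S, |a k|) * lam ^ (-2 : ℝ) / 2) ?_
      filter_upwards [eventually_ge_atTop 0] with x hx
      exact hbd x (by simpa using hx)
    · intro x
      rw [hf]
      simp only
      rw [norm_div, norm_mul, hlam]
      have e1 : ((x:ℂ) * Complex.I).re - 2 = -2 := by simp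
      rw [e1]
      have h2 := hedge (2 - x * Complex.I) (by simp)
      have e2 : (2 - (x:ℂ) * Complex.I - 4) = (-2 - x * Complex.I) := by ring
      rw [e2] at h2
      have h3 : 2 ≤ ‖-2 - (x:ℂ) * Complex.I‖ := hden _ (by simp)
      rw [div_le_iff₀ (by linarith)]
      calc _ ≤ (C * (1 + |A|) * ‖-2 - (x:ℂ) * Complex.I‖) * lam ^ (-2 : ℝ) :=
            mul_le_mul_of_nonneg_right h2 (Real.rpow_nonneg hl.le _)
        _ = _ := by ring
  have hfin := hkey (2 - s) (by simpa using hs)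
  rw [hf] at hfin
  simp only at hfin
  have e1 : 2 - (2 - s) = s := by ring
  have e2 : -2 - (2 - s) = s - 4 := by ring
  rw [e1, e2, norm_div, norm_mul, hlam] at hfin
  have e3 : (2 - s).re - 2 = -s.re := by simp
  rw [e3] at hfin
  have h4 : 2 ≤ ‖s - 4‖ := by
    have := hden (2 - s) (by simpa using hs)
    rwa [e2] at this
  rw [div_le_iff₀ (by linarith)] at hfin
  have h5 : 0 < lam ^ s.re := Real.rpow_pos_of_pos hl _
  have h6 : lam ^ (-s.re) * lam ^ s.re = 1 := by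
    rw [← Real.rpow_add hl]
    simp
  have h7 : lam ^ (-2 : ℝ) * lam ^ s.re = lam ^ (s.re - 2) := by
    rw [← Real.rpow_add hl]
    congr 1
    ring
  calc ‖Dd S a θ s‖ = ‖Dd S a θ s‖ * lam ^ (-s.re) * lam ^ s.re := by rw [mul_assoc, h6, mul_one]
    _ ≤ (C * (1 + |A|) * lam ^ (-2 : ℝ) * ‖s - 4‖) * lam ^ s.re := mul_le_mul_of_nonneg_right hfin h5.le
    _ = C * (1 + |A|) * ‖s - 4‖ * (lam ^ (-2 : ℝ) * lam ^ s.re) := by ring
    _ = _ := by rw [h7]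

/-- growth of `Psi` in a vertical strip -/
lemma Psi_left {p : ℝ} (hp : 1 ≤ p) (R : ℝ) (hR : 0 ≤ R) : ∃ (C : ℝ) (B : ℕ), 0 < C ∧
    ∀ (ι : Type) (S : Finset ι) (a θ : ι → ℝ) (E lam : ℝ),
    0 < lam → lam ≤ 1 → (∀ k ∈ S, lam ≤ θ k) → (∀ k ∈ S, θ k ≤ 1) → 0 < E → E ≤ 1 →
    ∫ x in Ioc (0:ℝ) 1, |hE S a θ x| ^ p ≤ E ^ p → ∀ s : ℂ, -R ≤ s.re → s.re ≤ 2 →
    ‖Psi S a θ s‖ ≤ C * (1 + |∑ k ∈ S, a k * θ k|) * (1 + |s.im|) ^ B * lam ^ (-R - 2) := by
  obtain ⟨C1, hC1, hD⟩ := Dd_left hp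
  obtain ⟨C2, B, hC2, hZ⟩ := Zs_growth R
  refine ⟨2 * (R + 3) + C2 * C1 * (R + 6), B + 1, by positivity, ?_⟩
  intro ι S a θ E lam hl hl1 hlθ h1 hE0 hE1 hI s hs1 hs2
  have h2 := hD ι S a θ E lam hl hl1 hlθ h1 hE0 hE1 hI s hs2
  have h3 := hZ s hs1 (by linarith)
  set A : ℝ := ∑ k ∈ S, a k * θ k with hA
  have hAn := abs_nonneg A
  set τ : ℝ := 1 + |s.im| with hτ
  have hτ1 : 1 ≤ τ := by rw [hτ]; linarith [abs_nonneg s.im]
  have hτB : τ ≤ τ ^ (B + 1) := le_self_pow₀ hτ1 (by omega)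
  have hsn : ‖s‖ ≤ (R + 2) * τ := by
    refine (Complex.norm_le_abs_re_add_abs_im s).trans ?_
    have : |s.re| ≤ R + 2 := abs_le.2 ⟨by linarith, by linarith⟩
    have h4 := abs_nonneg s.im
    rw [hτ]
    nlinarith
  have hs1n : ‖s - 1‖ ≤ (R + 3) * τ := by
    refine (norm_sub_le _ _).trans ?_
    rw [norm_one]
    nlinarith
  have hs4n : ‖s - 4‖ ≤ (R + 6) * τ := by
    refine (norm_sub_le _ _).trans ?_
    have : ‖(4:ℂ)‖ = 4 := by norm_num
    rw [this]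
    nlinarith
  have hL1 : 1 ≤ lam ^ (-R - 2) := Real.one_le_rpow_of_pos_of_le_one_of_nonpos hl hl1 (by linarith)
  have hL2 : lam ^ (s.re - 2) ≤ lam ^ (-R - 2) :=
    Real.rpow_le_rpow_of_exponent_ge hl hl1 (by linarith)
  have hL0 : 0 ≤ lam ^ (s.re - 2) := Real.rpow_nonneg hl.le _
  unfold Psi
  have h5 : ‖s - 1 + Zs s * Dd S a θ s - (A:ℂ) * s‖ ≤ ‖s - 1‖ + ‖Zs s‖ * ‖Dd S a θ s‖ + |A| * ‖s‖ := by
    refine (norm_sub_le _ _).trans (add_le_add ((norm_add_le _ _).trans ?_) ?_)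
    · rw [norm_mul]
    · rw [norm_mul, Complex.norm_real, Real.norm_eq_abs]
  refine h5.trans ?_
  have t1 : ‖s - 1‖ + |A| * ‖s‖ ≤ (2 * (R + 3)) * (1 + |A|) * τ ^ (B + 1) * lam ^ (-R - 2) := by
    have u1 : ‖s - 1‖ + |A| * ‖s‖ ≤ (2 * (R + 3)) * (1 + |A|) * τ := by
      have : |A| * ‖s‖ ≤ |A| * ((R + 2) * τ) := mul_le_mul_of_nonneg_left hsn hAn
      have h6 : 0 ≤ |A| * τ := by positivity
      nlinarith
    calc ‖s - 1‖ + |A| * ‖s‖ ≤ (2 * (R + 3)) * (1 + |A|) * τ := u1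
      _ ≤ (2 * (R + 3)) * (1 + |A|) * τ ^ (B + 1) := mul_le_mul_of_nonneg_left hτB (by positivity)
      _ = (2 * (R + 3)) * (1 + |A|) * τ ^ (B + 1) * 1 := by ring
      _ ≤ _ := mul_le_mul_of_nonneg_left hL1 (by positivity)
  have t2 : ‖Zs s‖ * ‖Dd S a θ s‖ ≤ (C2 * C1 * (R + 6)) * (1 + |A|) * τ ^ (B + 1) * lam ^ (-R - 2) := by
    calc ‖Zs s‖ * ‖Dd S a θ s‖ ≤ (C2 * τ ^ B) * (C1 * (1 + |A|) * ‖s - 4‖ * lam ^ (s.re - 2)) := by
          refine mul_le_mul h3 h2 (norm_nonneg _) (by positivity)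
      _ ≤ (C2 * τ ^ B) * (C1 * (1 + |A|) * ((R + 6) * τ) * lam ^ (-R - 2)) := by gcongr
      _ = _ := by ring
  calc _ = (‖s - 1‖ + |A| * ‖s‖) + ‖Zs s‖ * ‖Dd S a θ s‖ := by ring
    _ ≤ _ := by
      refine (add_le_add t1 t2).trans (le_of_eq ?_)
      ring

end

end Pool.Agent.K3h81.NB
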