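import Pool.Agent.K3h81.NB.E3

/-!
# The lower bound: every zero of zeta keeps `1` away from the combinations of fractional parts
-/

set_option autoImplicit false

namespace Pool.Agent.K3h81.NB

open MeasureTheory Set Filter Topology
open Pool.Agent.H295R2 (Zs)

set_option maxHeartbeats 1000000

noncomputable section

lemma gauss_bound (γ : ℝ) (B : ℕ) : ∃ G : ℝ, 0 < G ∧ ∀ t : ℝ, (1 + |t|) ^ B * Real.exp (-(t - γ) ^ 2) ≤ G := by
  refine ⟨(1 + |γ|) ^ B * (B.factorial * Real.exp 2), by positivity, fun t => ?_⟩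
  set u : ℝ := |t - γ| with hu
  have hu0 : 0 ≤ u := abs_nonneg _
  have h1 : 1 + |t| ≤ (1 + |γ|) * (1 + u) := by
    have h2 : |t| ≤ |t - γ| + |γ| := by
      have := abs_add_le (t - γ) γ
      simpa using this
    nlinarith [abs_nonneg γ, mul_nonneg (abs_nonneg γ) hu0]
  have h2 : (1 + |t|) ^ B ≤ (1 + |γ|) ^ B * (1 + u) ^ B := by
    rw [← mul_pow]
    exact pow_le_pow_left₀ (by positivity) h1 B
  have h3 : (1 + u) ^ B ≤ B.factorial * Real.exp (1 + u) := by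
    have := Real.pow_div_factorial_le_exp (1 + u) (by positivity) B
    rw [div_le_iff₀ (by positivity)] at this
    linarith
  have h4 : Real.exp (1 + u) * Real.exp (-(t - γ) ^ 2) ≤ Real.exp 2 := by
    rw [← Real.exp_add]
    refine Real.exp_le_exp.2 ?_
    have : (t - γ) ^ 2 = u ^ 2 := by rw [hu, sq_abs]
    rw [this]
    nlinarith [sq_nonneg (u - 1)]
  calc (1 + |t|) ^ B * Real.exp (-(t - γ) ^ 2) ≤
        ((1 + |γ|) ^ B * (1 + u) ^ B) * Real.exp (-(t - γ) ^ 2) :=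
        mul_le_mul_of_nonneg_right h2 (Real.exp_pos _).le
    _ ≤ ((1 + |γ|) ^ B * (B.factorial * Real.exp (1 + u))) * Real.exp (-(t - γ) ^ 2) := by gcongr
    _ = (1 + |γ|) ^ B * (B.factorial * (Real.exp (1 + u) * Real.exp (-(t - γ) ^ 2))) := by ring
    _ ≤ _ := by gcongr

lemma norm_exp_sq (ρ s : ℂ) : ‖Complex.exp ((s - ρ) ^ 2)‖ =
    Real.exp ((s.re - ρ.re) ^ 2) * Real.exp (-(s.im - ρ.im) ^ 2) := by
  rw [Complex.norm_exp, ← Real.exp_add]
  congr 1
  simp [sq]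
  ring

/-- a zero that is not real keeps `(ρ - 1) - A ρ` away from zero for real `A` -/
lemma zero_sep {ρ : ℂ} (him : ρ.im ≠ 0) : ∃ c : ℝ, 0 < c ∧ ∀ A : ℝ, c * (1 + |A|) ≤ ‖(ρ - 1) - (A : ℂ) * ρ‖ := by
  have hρ0 : ρ ≠ 0 := by rintro rfl; simp at him
  have hρn : 0 < ‖ρ‖ := norm_pos_iff.2 hρ0
  set w : ℂ := (ρ - 1) / ρ with hw
  have hwim : w.im ≠ 0 := by
    have h1 : w = 1 - ρ⁻¹ := by
      rw [hw]
      field_simp
    rw [h1, Complex.sub_im, Complex.one_im, Complex.inv_im, zero_sub, neg_div, neg_neg]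
    exact div_ne_zero him (by simpa using hρ0)
  have hwi : 0 < |w.im| := abs_pos.2 hwim
  refine ⟨‖ρ‖ * (|w.im| / (1 + 2 * ‖w‖)), by positivity, fun A => ?_⟩
  have h2 : (ρ - 1) - (A : ℂ) * ρ = ρ * (w - A) := by
    rw [hw]
    field_simp
  rw [h2, norm_mul, mul_assoc]
  refine mul_le_mul_of_nonneg_left ?_ hρn.le
  rw [div_mul_eq_mul_div, div_le_iff₀ (by positivity)]
  have h3 : |w.im| ≤ ‖w - A‖ := by
    have := Complex.abs_im_le_norm (w - A)
    simpa using this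
  have h4 : |w.im| ≤ ‖w‖ := Complex.abs_im_le_norm w
  have h5 : |A| ≤ ‖w‖ + ‖w - A‖ := by
    have h6 := norm_sub_le w (w - A)
    rw [sub_sub_cancel, Complex.norm_real, Real.norm_eq_abs] at h6
    exact h6
  nlinarith [norm_nonneg w, norm_nonneg (w - (A:ℂ)), mul_nonneg (norm_nonneg w) (norm_nonneg (w - (A:ℂ))),
    mul_le_mul_of_nonneg_right h4 (norm_nonneg (w - (A:ℂ))), mul_le_mul_of_nonneg_left h5 hwi.le,
    mul_le_mul_of_nonneg_right h3 (norm_nonneg w)]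

/-- **the lower bound** -/
theorem lower {p : ℝ} (hp : 1 ≤ p) {ρ : ℂ} (hρ : Zs ρ = 0) (him : ρ.im ≠ 0) (hre : 0 < ρ.re)
    (hβ : ρ.re < 1 / p) {e : ℝ} (he : 1 / p - ρ.re < e) :
    ∃ c : ℝ, 0 < c ∧ ∀ (ι : Type) (S : Finset ι) (a θ : ι → ℝ) (E lam : ℝ),
    0 < lam → lam ≤ 1 → (∀ k ∈ S, lam ≤ θ k) → (∀ k ∈ S, θ k ≤ 1) → 0 < E →
    ∫ x in Ioc (0:ℝ) 1, |hE S a θ x| ^ p ≤ E ^ p → c * lam ^ e ≤ E := by
  have hp0 : 0 < p := by linarith
  have hp1 : 1 / p ≤ 1 := by rw [div_le_one hp0]; exact hp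
  set β : ℝ := ρ.re with hβdef
  set κ : ℝ := min 1 ((e - (1 / p - β)) / 2) with hκ
  have hκ0 : 0 < κ := lt_min one_pos (by linarith)
  have hκ1 : κ ≤ 1 := min_le_left _ _
  have hκ2 : κ ≤ (e - (1 / p - β)) / 2 := min_le_right _ _
  set α : ℝ := 1 / p + κ with hα
  have hα2 : α ≤ 2 := by rw [hα]; linarith
  have hαp : 1 / p < α := by rw [hα]; linarith
  set δ : ℝ := α - β with hδ
  have hδ0 : 0 < δ := by rw [hδ]; linarith
  have hδe : δ < e := by rw [hδ, hα]; linarith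
  have he0 : 0 < e := by linarith
  set R : ℝ := 2 * δ / (e - δ) with hR
  have hR0 : 0 < R := by
    have : 0 < e - δ := by linarith
    positivity
  have hRe : δ * (R + 2) ≤ e * (R + β) := by
    have h1 : R * (e - δ) = 2 * δ := by
      rw [hR]
      have : e - δ ≠ 0 := by linarith
      field_simp
    nlinarith
  obtain ⟨C1, B, hC1, hleft⟩ := Psi_left hp R hR0.le
  obtain ⟨C2, hC2, hH⟩ := H_bound hp hαp
  obtain ⟨G1, hG1, hg1⟩ := gauss_bound ρ.im B
  obtain ⟨G2, hG2, hg2⟩ := gauss_bound ρ.im 2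
  obtain ⟨c1, hc1, hsep⟩ := zero_sep him
  set Q : ℝ := Real.exp ((R + β + 2) ^ 2) with hQ
  have hQ0 : 0 < Q := Real.exp_pos _
  set C3 : ℝ := C2 * 9 * G2 * Q with hC3
  have hC30 : 0 < C3 := by positivity
  set C4 : ℝ := C1 * G1 * Q with hC4
  have hC40 : 0 < C4 := by positivity
  set u : ℝ := (β + R) / (α + R) with hu
  have hαR : 0 < α + R := by linarith [hδ0]
  have hβR : 0 < β + R := by linarith
  have hu0 : 0 < u := by positivity
  have hu1 : u < 1 := by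
    rw [hu, div_lt_one hαR]
    linarith
  have hu' : (1 - u) / u = δ / (R + β) := by
    rw [hu, hδ]
    have h1 : α + R ≠ 0 := hαR.ne'
    have h2 : β + R ≠ 0 := hβR.ne'
    have h3 : R + β ≠ 0 := by rw [add_comm]; exact h2
    field_simp
    ring
  set c5 : ℝ := c1 / C4 ^ (1 - u) with hc5
  have hc50 : 0 < c5 := by
    have : 0 < C4 ^ (1 - u) := Real.rpow_pos_of_pos hC40 _
    positivity
  have hc : 0 < c5 ^ (1 / u) / C3 := by
    have : 0 < c5 ^ (1 / u) := Real.rpow_pos_of_pos hc50 _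
    positivity
  refine ⟨min 1 (c5 ^ (1 / u) / C3), lt_min one_pos hc, ?_⟩
  intro ι S a θ E lam hl hl1 hlθ h1 hE0 hI
  have hle1 : lam ^ e ≤ 1 := Real.rpow_le_one hl.le hl1 he0.le
  have hle0 : 0 < lam ^ e := Real.rpow_pos_of_pos hl _
  rcases lt_or_ge 1 E with hE1 | hE1
  · have : min 1 (c5 ^ (1 / u) / C3) ≤ 1 := min_le_left _ _
    have h2 : 0 < min 1 (c5 ^ (1 / u) / C3) := lt_min one_pos hc
    nlinarith
  have h0 : ∀ k ∈ S, 0 < θ k := fun k hk => hl.trans_le (hlθ k hk)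
  have hL := hleft ι S a θ E lam hl hl1 hlθ h1 hE0 hE1 hI
  set A : ℝ := ∑ k ∈ S, a k * θ k with hA
  set K : ℝ := 1 + |A| with hK
  have hK1 : 1 ≤ K := by rw [hK]; linarith [abs_nonneg A]
  have hK0 : 0 < K := by linarith
  set f : ℂ → ℂ := fun s => Psi S a θ s * Complex.exp ((s - ρ) ^ 2) with hf
  have hPd : Differentiable ℂ (Psi S a θ) := by
    unfold Psi
    exact ((differentiable_id.sub_const 1).add (H295R2.Zs_differentiable.mul (Dd_diff h0))).sub
      (differentiable_id.const_mul _)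
  have hfd : Differentiable ℂ f := by
    rw [hf]
    exact hPd.mul (by fun_prop)
  have hQle : ∀ s : ℂ, -R ≤ s.re → s.re ≤ 2 → Real.exp ((s.re - β) ^ 2) ≤ Q := by
    intro s hs1 hs2
    rw [hQ]
    refine Real.exp_le_exp.2 ?_
    exact sq_le_sq' (by linarith) (by linarith)
  have hbound : ∀ s : ℂ, -R ≤ s.re → s.re ≤ 2 → ‖f s‖ ≤ C4 * K * lam ^ (-R - 2) := by
    intro s hs1 hs2
    rw [hf]
    simp only
    rw [norm_mul, norm_exp_sq]
    have h2 := hL s hs1 hs2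
    have h3 := hg1 s.im
    have h4 := hQle s hs1 hs2
    have hlp : 0 < lam ^ (-R - 2) := Real.rpow_pos_of_pos hl _
    calc ‖Psi S a θ s‖ * (Real.exp ((s.re - β) ^ 2) * Real.exp (-(s.im - ρ.im) ^ 2))
        ≤ (C1 * K * (1 + |s.im|) ^ B * lam ^ (-R - 2)) * (Q * Real.exp (-(s.im - ρ.im) ^ 2)) := by
          refine mul_le_mul h2 (mul_le_mul_of_nonneg_right h4 (Real.exp_pos _).le) (by positivity) (by positivity)
      _ = C1 * K * lam ^ (-R - 2) * Q * ((1 + |s.im|) ^ B * Real.exp (-(s.im - ρ.im) ^ 2)) := by ring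
      _ ≤ C1 * K * lam ^ (-R - 2) * Q * G1 := mul_le_mul_of_nonneg_left h3 (by positivity)
      _ = _ := by rw [hC4]; ring
  have hright : ∀ s : ℂ, s.re = α → ‖f s‖ ≤ C3 * E := by
    intro s hs
    rw [hf]
    simp only
    rw [norm_mul, norm_exp_sq, ← psi_eq (a := a) h0 h1 (s := s) (by
      rw [hs, hα]
      have : 0 < 1 / p := by positivity
      linarith), norm_mul, norm_mul]
    have h2 := hH (hE S a θ) _ E (hE_meas S a θ) (hE_abs S a θ) hE0 hI s hs
    have h4 := hQle s (by rw [hs]; linarith) (by rw [hs]; exact hα2)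
    have h3 := hg2 s.im
    have hα0 : 0 < α := lt_trans (by positivity) hαp
    have hsn : ‖s‖ ≤ 3 * (1 + |s.im|) := by
      refine (Complex.norm_le_abs_re_add_abs_im s).trans ?_
      rw [hs, abs_of_pos hα0]
      linarith [abs_nonneg s.im]
    have hsn1 : ‖s - 1‖ ≤ 3 * (1 + |s.im|) := by
      refine (norm_sub_le _ _).trans ?_
      refine (add_le_add (Complex.norm_le_abs_re_add_abs_im s) le_rfl).trans ?_
      rw [hs, abs_of_pos hα0, norm_one]
      linarith [abs_nonneg s.im]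
    calc ‖s‖ * ‖s - 1‖ * ‖∫ x in Ioc (0:ℝ) 1, ((hE S a θ x : ℝ) : ℂ) * (x : ℂ) ^ (s - 1)‖ *
          (Real.exp ((s.re - β) ^ 2) * Real.exp (-(s.im - ρ.im) ^ 2))
        ≤ ((3 * (1 + |s.im|)) * (3 * (1 + |s.im|)) * (C2 * E)) * (Q * Real.exp (-(s.im - ρ.im) ^ 2)) := by
          refine mul_le_mul (mul_le_mul (mul_le_mul hsn hsn1 (norm_nonneg _) (by positivity)) h2
            (norm_nonneg _) (by positivity)) (mul_le_mul_of_nonneg_right h4 (Real.exp_pos _).le)
            (by positivity) (by positivity)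
      _ = C2 * 9 * Q * E * ((1 + |s.im|) ^ 2 * Real.exp (-(s.im - ρ.im) ^ 2)) := by ring
      _ ≤ C2 * 9 * Q * E * G2 := mul_le_mul_of_nonneg_left h3 (by positivity)
      _ = _ := by rw [hC3]; ring
  have hthree := Complex.HadamardThreeLines.norm_le_interp_of_mem_verticalClosedStrip' (f := f) (z := ρ)
    (a := C4 * K * lam ^ (-R - 2)) (b := C3 * E) (l := -R) (u := α) (by linarith)
    (by
      show ρ.re ∈ Icc (-R) α
      exact ⟨by linarith, by linarith⟩)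
    hfd.diffContOnCl
    (by
      refine ⟨C4 * K * lam ^ (-R - 2), ?_⟩
      rintro _ ⟨s, hs, rfl⟩
      have hs' : s.re ∈ Icc (-R) α := hs
      exact hbound s hs'.1 (hs'.2.trans hα2))
    (by
      intro s hs
      have hs' : s.re = -R := hs
      exact hbound s hs'.ge (by rw [hs']; linarith))
    (by
      intro s hs
      exact hright s hs)
  have e1 : (ρ.re - -R) / (α - -R) = u := by
    rw [hu, sub_neg_eq_add, sub_neg_eq_add]
  rw [e1] at hthree
  have hval : f ρ = (ρ - 1) - (A : ℂ) * ρ := by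
    rw [hf]
    simp only
    unfold Psi
    rw [hρ, sub_self, ← hA]
    simp
  rw [hval] at hthree
  have hmain := (hsep A).trans hthree
  -- solving for `E`
  set L : ℝ := lam ^ (-R - 2) with hLdef
  have hL0 : 0 < L := Real.rpow_pos_of_pos hl _
  have hX : (C4 * K * L) ^ (1 - u) ≤ C4 ^ (1 - u) * K * L ^ (1 - u) := by
    rw [Real.mul_rpow (by positivity) hL0.le, Real.mul_rpow hC40.le hK0.le]
    have h2 : K ^ (1 - u) ≤ K := by
      calc K ^ (1 - u) ≤ K ^ (1:ℝ) := Real.rpow_le_rpow_of_exponent_le hK1 (by linarith)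
        _ = K := Real.rpow_one K
    have : 0 < C4 ^ (1 - u) := Real.rpow_pos_of_pos hC40 _
    have : 0 < L ^ (1 - u) := Real.rpow_pos_of_pos hL0 _
    gcongr
  have hY0 : 0 < C3 * E := by positivity
  have hYu : 0 < (C3 * E) ^ u := Real.rpow_pos_of_pos hY0 _
  have hC4u : 0 < C4 ^ (1 - u) := Real.rpow_pos_of_pos hC40 _
  have hLu : 0 < L ^ (1 - u) := Real.rpow_pos_of_pos hL0 _
  have h6 : c1 ≤ C4 ^ (1 - u) * L ^ (1 - u) * (C3 * E) ^ u := by
    have h7 : c1 * K ≤ (C4 ^ (1 - u) * L ^ (1 - u) * (C3 * E) ^ u) * K := by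
      calc c1 * K ≤ (C4 * K * L) ^ (1 - u) * (C3 * E) ^ u := hmain
        _ ≤ (C4 ^ (1 - u) * K * L ^ (1 - u)) * (C3 * E) ^ u := mul_le_mul_of_nonneg_right hX hYu.le
        _ = _ := by ring
    exact le_of_mul_le_mul_right h7 hK0
  have hLinv : L ^ (1 - u) * lam ^ ((R + 2) * (1 - u)) = 1 := by
    rw [hLdef, ← Real.rpow_mul hl.le, ← Real.rpow_add hl]
    have : (-R - 2) * (1 - u) + (R + 2) * (1 - u) = 0 := by ring
    rw [this, Real.rpow_zero]
  have hlp : 0 < lam ^ ((R + 2) * (1 - u)) := Real.rpow_pos_of_pos hl _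
  have h8 : c5 * lam ^ ((R + 2) * (1 - u)) ≤ (C3 * E) ^ u := by
    rw [hc5, div_mul_eq_mul_div, div_le_iff₀ hC4u]
    calc c1 * lam ^ ((R + 2) * (1 - u)) ≤
          (C4 ^ (1 - u) * L ^ (1 - u) * (C3 * E) ^ u) * lam ^ ((R + 2) * (1 - u)) :=
          mul_le_mul_of_nonneg_right h6 hlp.le
      _ = (C3 * E) ^ u * C4 ^ (1 - u) * (L ^ (1 - u) * lam ^ ((R + 2) * (1 - u))) := by ring
      _ = _ := by rw [hLinv, mul_one]
  have h9 : (c5 * lam ^ ((R + 2) * (1 - u))) ^ (1 / u) ≤ C3 * E := by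
    have h10 := Real.rpow_le_rpow (by positivity) h8 (show 0 ≤ 1 / u by positivity)
    rw [← Real.rpow_mul hY0.le] at h10
    have e2 : u * (1 / u) = 1 := by field_simp
    rwa [e2, Real.rpow_one] at h10
  rw [Real.mul_rpow hc50.le hlp.le, ← Real.rpow_mul hl.le] at h9
  have e3 : (R + 2) * (1 - u) * (1 / u) = (R + 2) * (δ / (R + β)) := by
    rw [← hu']
    ring
  rw [e3] at h9
  have h11 : lam ^ e ≤ lam ^ ((R + 2) * (δ / (R + β))) := by
    refine Real.rpow_le_rpow_of_exponent_ge hl hl1 ?_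
    rw [← mul_div_assoc, div_le_iff₀ (by linarith)]
    linarith
  have hc5u : 0 < c5 ^ (1 / u) := Real.rpow_pos_of_pos hc50 _
  calc min 1 (c5 ^ (1 / u) / C3) * lam ^ e ≤ (c5 ^ (1 / u) / C3) * lam ^ e :=
        mul_le_mul_of_nonneg_right (min_le_right _ _) hle0.le
    _ ≤ (c5 ^ (1 / u) / C3) * lam ^ ((R + 2) * (δ / (R + β))) :=
        mul_le_mul_of_nonneg_left h11 hc.le
    _ = (c5 ^ (1 / u) * lam ^ ((R + 2) * (δ / (R + β)))) / C3 := by ring
    _ ≤ (C3 * E) / C3 := div_le_div_of_nonneg_right h9 hC30.le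
    _ = E := by field_simp

end

end Pool.Agent.K3h81.NB
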