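import Pool.Agent.Helper625.ZF

/-!
# Mellin transforms of combinations of fractional parts, and a Plancherel inequality
-/

set_option autoImplicit false

namespace Pool.Agent.K3h81.NB

open MeasureTheory Set Complex Filter Topology FourierTransform
open Pool.Agent.Helper625.ZF (frC)

noncomputable section

/-- `∫_{Ioi 0} x^(2σ-1) h(x)^2` through the exponential substitution -/
lemma exp_subst (g : ℝ → ℝ) : ∫ x in Ioi (0 : ℝ), g x = ∫ v : ℝ, Real.exp (-v) * g (Real.exp (-v)) := by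
  have himg : (fun v : ℝ => Real.exp (-v)) '' univ = Ioi 0 := by
    ext x
    constructor
    · rintro ⟨v, -, rfl⟩
      exact Real.exp_pos _
    · intro hx
      refine ⟨-Real.log x, mem_univ _, ?_⟩
      simp only [neg_neg]
      exact Real.exp_log hx
  have hinj : InjOn (fun v : ℝ => Real.exp (-v)) univ := by
    intro a _ b _ hab
    have := Real.exp_injective hab
    linarith
  have hder : ∀ v ∈ (univ : Set ℝ), HasDerivWithinAt (fun v : ℝ => Real.exp (-v)) (-Real.exp (-v)) univ v := by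
    intro v _
    have h := ((hasDerivAt_neg v).exp).hasDerivWithinAt (s := univ)
    refine h.congr_deriv ?_
    ring
  have h := integral_image_eq_integral_abs_deriv_smul MeasurableSet.univ hder hinj g
  rw [himg] at h
  rw [h]
  simp

lemma integrable_exp_subst (g : ℝ → ℝ) : IntegrableOn g (Ioi (0 : ℝ)) ↔
    Integrable (fun v : ℝ => Real.exp (-v) * g (Real.exp (-v))) := by
  have himg : (fun v : ℝ => Real.exp (-v)) '' univ = Ioi 0 := by
    ext x
    constructor
    · rintro ⟨v, -, rfl⟩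
      exact Real.exp_pos _
    · intro hx
      refine ⟨-Real.log x, mem_univ _, ?_⟩
      simp only [neg_neg]
      exact Real.exp_log hx
  have hinj : InjOn (fun v : ℝ => Real.exp (-v)) univ := by
    intro a _ b _ hab
    have := Real.exp_injective hab
    linarith
  have hder : ∀ v ∈ (univ : Set ℝ), HasDerivWithinAt (fun v : ℝ => Real.exp (-v)) (-Real.exp (-v)) univ v := by
    intro v _
    have h := ((hasDerivAt_neg v).exp).hasDerivWithinAt (s := univ)
    refine h.congr_deriv ?_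
    ring
  have h := integrableOn_image_iff_integrableOn_abs_deriv_smul MeasurableSet.univ hder hinj g
  rw [himg] at h
  rw [h]
  simp

lemma integrable_decay_a {a : ℝ} (ha : 1 / 2 < a) :
    Integrable (fun ξ : ℝ => (1 + |2 * Real.pi * ξ|) ^ (-(2 * a))) := by
  have h1 := integrable_one_add_norm (E := ℝ) (μ := volume) (r := 2 * a) (by simp; linarith)
  refine h1.mono' ?_ (Eventually.of_forall fun ξ => ?_)
  · refine Continuous.aestronglyMeasurable ?_
    refine Continuous.rpow_const (by fun_prop) ?_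
    intro x
    left
    positivity
  · rw [Real.norm_of_nonneg (by positivity)]
    refine Real.rpow_le_rpow_of_nonpos (by positivity) ?_ (by linarith)
    rw [Real.norm_eq_abs, abs_mul, abs_of_pos (by positivity : (0:ℝ) < 2 * Real.pi)]
    have := Real.pi_gt_three
    nlinarith [abs_nonneg ξ]

/-- **Plancherel inequality** for Mellin transforms. -/
theorem mellin_planch {h : ℝ → ℝ} (hm : Measurable h) {σ κ K B a : ℝ} (hκ : 0 < κ)
    (hb : ∀ x : ℝ, 0 < x → x ^ σ * |h x| ≤ K * Real.exp (-κ * |Real.log x|)) (ha : 1 / 2 < a)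
    (hB : ∀ t : ℝ, ‖mellin (fun x => ((h x : ℝ) : ℂ)) ((σ : ℂ) + t * I)‖ ≤ B * (1 + |t|) ^ (-a)) :
    IntegrableOn (fun x => x ^ (2 * σ - 1) * h x ^ 2) (Ioi 0) ∧
    ∫ x in Ioi (0 : ℝ), x ^ (2 * σ - 1) * h x ^ 2 ≤
      B ^ 2 * ∫ ξ : ℝ, (1 + |2 * Real.pi * ξ|) ^ (-(2 * a)) := by
  set F : ℝ → ℂ := fun v => ((Real.exp (-σ * v) * h (Real.exp (-v)) : ℝ) : ℂ) with hF
  have hFm : Measurable F := by
    rw [hF]
    fun_prop
  have hFb : ∀ v, ‖F v‖ ≤ K * Real.exp (-κ * |v|) := by
    intro v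
    have h1 := hb (Real.exp (-v)) (Real.exp_pos _)
    rw [Real.log_exp, abs_neg, ← Real.exp_mul] at h1
    rw [hF]
    simp only [Complex.norm_real, Real.norm_eq_abs, abs_mul, abs_of_pos (Real.exp_pos _)]
    have e1 : -v * σ = -σ * v := by ring
    rw [e1] at h1
    exact h1
  have hFi : Integrable F :=
    ((Helper625.ZF.integrable_exp_neg_abs κ hκ).const_mul K).mono' hFm.aestronglyMeasurable
      (Eventually.of_forall hFb)
  have hF2 : Integrable (fun v => ‖F v‖ ^ 2) := by
    refine ((Helper625.ZF.integrable_exp_neg_abs (2 * κ) (by linarith)).const_mul (K ^ 2)).mono'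
      (hFm.norm.pow_const 2).aestronglyMeasurable (Eventually.of_forall fun v => ?_)
    rw [Real.norm_of_nonneg (by positivity)]
    calc ‖F v‖ ^ 2 ≤ (K * Real.exp (-κ * |v|)) ^ 2 := pow_le_pow_left₀ (norm_nonneg _) (hFb v) 2
      _ = _ := by
        rw [mul_pow, ← Real.exp_nat_mul]
        congr 2
        push_cast
        ring
  have hFL : MemLp F 2 := by
    rw [memLp_two_iff_integrable_sq_norm hFi.1]
    exact hF2
  have hfour : ∀ ξ : ℝ, 𝓕 F ξ = mellin (fun x => ((h x : ℝ) : ℂ)) ((σ : ℂ) + (2 * Real.pi * ξ : ℝ) * I) := by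
    intro ξ
    rw [mellin_eq_fourier]
    have h1 : ((σ : ℂ) + (2 * Real.pi * ξ : ℝ) * I).re = σ := by simp
    have h2 : ((σ : ℂ) + (2 * Real.pi * ξ : ℝ) * I).im = 2 * Real.pi * ξ := by simp
    rw [h1, h2]
    have hpi := Real.pi_pos
    have h3 : 2 * Real.pi * ξ / (2 * Real.pi) = ξ := by field_simp
    rw [h3]
    have h4 : F = fun u : ℝ => Real.exp (-σ * u) • ((h (Real.exp (-u)) : ℝ) : ℂ) := by
      funext v
      rw [hF]
      simp only
      rw [Complex.real_smul]
      push_cast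
      rfl
    rw [← h4]
  obtain ⟨p1, p2⟩ := Helper625.Planch.plancherel F hFi hFL
  have hsub : ∀ v : ℝ, ‖F v‖ ^ 2 = Real.exp (-v) * (Real.exp (-v) ^ (2 * σ - 1) * h (Real.exp (-v)) ^ 2) := by
    intro v
    rw [hF]
    simp only [Complex.norm_real, Real.norm_eq_abs, sq_abs, mul_pow]
    rw [← mul_assoc, ← Real.exp_mul, ← Real.exp_add, ← Real.exp_nat_mul]
    congr 2
    push_cast
    ring
  constructor
  · rw [integrable_exp_subst]
    refine hF2.congr (Eventually.of_forall fun v => ?_)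
    exact hsub v
  · rw [exp_subst]
    have e1 : ∫ v : ℝ, Real.exp (-v) * (Real.exp (-v) ^ (2 * σ - 1) * h (Real.exp (-v)) ^ 2) =
        ∫ v, ‖F v‖ ^ 2 := integral_congr_ae (Eventually.of_forall fun v => (hsub v).symm)
    rw [e1, ← p2, ← integral_const_mul]
    refine integral_mono_of_nonneg (Eventually.of_forall fun ξ => by positivity)
      ((integrable_decay_a ha).const_mul _) (Eventually.of_forall fun ξ => ?_)
    simp only
    rw [hfour]
    have h3 := hB (2 * Real.pi * ξ)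
    calc _ ≤ (B * (1 + |2 * Real.pi * ξ|) ^ (-a)) ^ 2 := pow_le_pow_left₀ (norm_nonneg _) h3 2
      _ = _ := by
        rw [mul_pow, ← Real.rpow_natCast ((1 + |2 * Real.pi * ξ|) ^ (-a)), ← Real.rpow_mul (by positivity)]
        congr 2
        push_cast
        ring

lemma frC_meas : Measurable frC := by
  unfold Helper625.ZF.frC
  exact Complex.measurable_ofReal.comp measurable_fract

lemma frC_norm_le (x : ℝ) : ‖frC x‖ ≤ 1 := by
  unfold Helper625.ZF.frC
  rw [Complex.norm_real, Real.norm_of_nonneg (Int.fract_nonneg _)]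
  exact (Int.fract_lt_one x).le

lemma frC_conv {s : ℂ} (h0 : 0 < s.re) (h1 : s.re < 1) : MellinConvergent frC (-s) := by
  refine mellinConvergent_of_isBigO_rpow (a := 0) (b := -1) ?_ ?_ ?_ ?_ ?_
  · refine LocallyIntegrable.locallyIntegrableOn ?_ _
    refine (locallyIntegrable_const (1:ℝ)).mono frC_meas.aestronglyMeasurable
      (Eventually.of_forall fun x => ?_)
    simpa using frC_norm_le x
  · refine Asymptotics.IsBigO.of_bound 1 (Eventually.of_forall fun x => ?_)
    simpa using frC_norm_le x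
  · simpa using h0
  · refine Asymptotics.IsBigO.of_bound 1 ?_
    have h2 : ∀ᶠ t : ℝ in 𝓝[>] 0, t < 1 := nhdsWithin_le_nhds (Iio_mem_nhds one_pos)
    filter_upwards [h2, self_mem_nhdsWithin] with t ht ht0
    have ht0' : 0 < t := ht0
    have h3 : Int.fract t = t := Int.fract_eq_self.mpr ⟨ht0'.le, ht⟩
    unfold Helper625.ZF.frC
    rw [h3]
    simp
  · simpa using h1

/-- the Mellin transform of `x ↦ {θ / x}` over all of `(0, ∞)` -/
lemma mellin_fr {θ : ℝ} (hθ : 0 < θ) {s : ℂ} (h0 : 0 < s.re) (h1 : s.re < 1) :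
    HasMellin (fun x : ℝ => ((Int.fract (θ / x) : ℝ) : ℂ)) s (-((θ : ℂ) ^ s * (riemannZeta s / s))) := by
  have hc := frC_conv h0 h1
  have e1 : (fun x : ℝ => ((Int.fract (θ / x) : ℝ) : ℂ)) = fun x => (fun t => frC t⁻¹) (θ⁻¹ * x) := by
    ext x
    unfold Helper625.ZF.frC
    simp only
    rw [mul_inv, inv_inv, div_eq_mul_inv]
  have hc2 : MellinConvergent (fun t : ℝ => frC t⁻¹) s := by
    have h3 := (MellinConvergent.comp_rpow (f := frC) (s := s) (a := -1) (by norm_num)).2 (by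
      have e : s / ((-1 : ℝ) : ℂ) = -s := by push_cast; ring
      rw [e]
      exact hc)
    have e4 : (fun t : ℝ => frC (t ^ (-1 : ℝ))) = fun t : ℝ => frC t⁻¹ := by
      ext t
      rw [Real.rpow_neg_one]
    rwa [e4] at h3
  have hpos : 0 < θ⁻¹ := inv_pos.2 hθ
  refine ⟨?_, ?_⟩
  · rw [e1]
    exact (MellinConvergent.comp_mul_left (f := fun t => frC t⁻¹) hpos).2 hc2
  · rw [e1, mellin_comp_mul_left (fun t => frC t⁻¹) s hpos, mellin_comp_inv, Helper625.ZF.mellin_frC h0 h1]
    rw [smul_eq_mul]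
    have e2 : (((θ⁻¹ : ℝ) : ℂ)) ^ (-s) = (θ : ℂ) ^ s := by
      rw [Complex.ofReal_inv, Complex.inv_cpow _ _ (by
        rw [Complex.arg_ofReal_of_nonneg hθ.le]; exact Real.pi_pos.ne), Complex.cpow_neg, inv_inv]
    rw [e2]
    ring

/-- the error function, on all of `(0, ∞)` -/
def hh (c : ℕ → ℝ) (N : ℕ) (x : ℝ) : ℝ :=
  (if x ≤ 1 then 1 else 0) + ∑ n ∈ Finset.Icc 1 N, c n * Int.fract (1 / (n * x))

lemma hh_meas (c : ℕ → ℝ) (N : ℕ) : Measurable (hh c N) := by
  unfold hh
  refine Measurable.add ?_ ?_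
  · exact Measurable.ite measurableSet_Iic measurable_const measurable_const
  · refine Finset.measurable_sum _ fun n _ => ?_
    refine Measurable.const_mul ?_ _
    exact measurable_fract.comp (by fun_prop)

/-- the Mellin transform of the error function -/
lemma mellin_hh (c : ℕ → ℝ) (N : ℕ) {s : ℂ} (h0 : 0 < s.re) (h1 : s.re < 1) :
    mellin (fun x => ((hh c N x : ℝ) : ℂ)) s =
      (1 - riemannZeta s * ∑ n ∈ Finset.Icc 1 N, (c n : ℂ) * (n : ℂ) ^ (-s)) / s := by
  have hs0 : s ≠ 0 := by rintro rfl; simp at h0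
  have hone := hasMellin_one_Ioc h0
  have hfr : ∀ n ∈ Finset.Icc 1 N, HasMellin (fun x : ℝ => ((Int.fract (1 / (n * x)) : ℝ) : ℂ)) s
      (-((n : ℂ) ^ (-s) * (riemannZeta s / s))) := by
    intro n hn
    have hn0 : (0:ℝ) < n := by exact_mod_cast (Finset.mem_Icc.1 hn).1
    have h3 := mellin_fr (θ := 1 / n) (by positivity) h0 h1
    have e1 : (fun x : ℝ => ((Int.fract (1 / (n:ℝ) / x) : ℝ) : ℂ)) =
        fun x : ℝ => ((Int.fract (1 / (n * x)) : ℝ) : ℂ) := by
      ext x
      rw [div_div]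
    have e2 : (((1 / (n:ℝ) : ℝ)) : ℂ) ^ s = (n : ℂ) ^ (-s) := by
      rw [one_div, Complex.ofReal_inv, Complex.inv_cpow _ _ (by
        rw [Complex.arg_ofReal_of_nonneg hn0.le]; exact Real.pi_pos.ne), Complex.cpow_neg]
      simp
    rw [e1, e2] at h3
    exact h3
  have hsum : mellin (fun x => ∑ n ∈ Finset.Icc 1 N, (c n : ℂ) * ((Int.fract (1 / (n * x)) : ℝ) : ℂ)) s =
      ∑ n ∈ Finset.Icc 1 N, (c n : ℂ) * (-((n : ℂ) ^ (-s) * (riemannZeta s / s))) ∧
      MellinConvergent (fun x => ∑ n ∈ Finset.Icc 1 N, (c n : ℂ) * ((Int.fract (1 / (n * x)) : ℝ) : ℂ)) s := by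
    have hint : ∀ n ∈ Finset.Icc 1 N, IntegrableOn (fun x : ℝ => (x : ℂ) ^ (s - 1) •
        ((c n : ℂ) * ((Int.fract (1 / (n * x)) : ℝ) : ℂ))) (Ioi 0) := by
      intro n hn
      have h4 := ((hfr n hn).1.const_smul (c n : ℂ))
      exact h4
    constructor
    · unfold mellin
      simp_rw [Finset.smul_sum]
      rw [integral_finsetSum _ hint]
      refine Finset.sum_congr rfl fun n hn => ?_
      have h5 := (hfr n hn).2
      unfold mellin at h5
      have h6 : ∀ x : ℝ, (x : ℂ) ^ (s - 1) • ((c n : ℂ) * ((Int.fract (1 / (n * x)) : ℝ) : ℂ)) =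
          (c n : ℂ) * ((x : ℂ) ^ (s - 1) • ((Int.fract (1 / (n * x)) : ℝ) : ℂ)) := by
        intro x
        simp only [smul_eq_mul]
        ring
      simp_rw [h6]
      rw [integral_const_mul, h5]
    · unfold MellinConvergent
      simp_rw [Finset.smul_sum]
      exact integrable_finsetSum _ hint
  have hadd := hasMellin_add hone.1 hsum.2
  have e0 : ∀ x ∈ Ioi (0:ℝ), (((hh c N x : ℝ)) : ℂ) = (indicator (Ioc 0 1) (fun _ : ℝ => (1:ℂ)) x) +
      ∑ n ∈ Finset.Icc 1 N, (c n : ℂ) * ((Int.fract (1 / (n * x)) : ℝ) : ℂ) := by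
    intro x hx
    unfold hh
    push_cast
    congr 1
    by_cases h : x ≤ 1
    · rw [if_pos h, indicator_of_mem (show x ∈ Ioc 0 1 from ⟨hx, h⟩), Complex.ofReal_one]
    · rw [if_neg h, indicator_of_notMem (fun h2 => h h2.2), Complex.ofReal_zero]
  have e1 : mellin (fun x => ((hh c N x : ℝ) : ℂ)) s = mellin (fun t => (indicator (Ioc 0 1) (fun _ : ℝ => (1:ℂ))) t +
      ∑ n ∈ Finset.Icc 1 N, (c n : ℂ) * ((Int.fract (1 / (n * t)) : ℝ) : ℂ)) s := by
    unfold mellin
    refine setIntegral_congr_fun measurableSet_Ioi fun x hx => ?_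
    simp only
    rw [e0 x hx]
  rw [e1, hadd.2, hone.2, hsum.1]
  rw [sub_div, sub_eq_add_neg]
  congr 1
  rw [Finset.mul_sum, Finset.sum_div, ← Finset.sum_neg_distrib]
  refine Finset.sum_congr rfl fun n _ => ?_
  ring

end

end Pool.Agent.K3h81.NB
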