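import Pool.Agent.H295R2.M

/-!
# A Perron formula with a shift, and the smoothed sums of the Moebius function twisted by `n ^ (-s)`
-/

set_option autoImplicit false

open MeasureTheory Filter Topology Set

namespace Pool.Agent.K3h81.NB

open Pool.Agent.H295R2

noncomputable section

/-- The integrand in the shifted Perron formula. -/
def PS (s0 : ℂ) (η x : ℝ) (w : ℂ) : ℂ :=
  Lap step w * phi η w ^ 2 * Complex.exp (w * x) * fz (s0 + w)

/-- the smooth cutoff -/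
def ct (η u : ℝ) : ℂ := avg η (avg η step) u

lemma one_add_mul {a b : ℝ} : 1 + |a + b| ≤ (1 + |a|) * (1 + |b|) := by
  have := abs_add_le a b
  nlinarith [abs_nonneg a, abs_nonneg b, mul_nonneg (abs_nonneg a) (abs_nonneg b)]

lemma norm_Lap_step {w : ℂ} {c : ℝ} (hc : 0 < c) (hw : c ≤ w.re) : ‖Lap step w‖ ≤ 1 / c := by
  rw [Lap_step (by linarith), norm_div, norm_one]
  have : c ≤ ‖w‖ := hw.trans ((le_abs_self _).trans (Complex.abs_re_le_norm w))
  exact one_div_le_one_div_of_le hc this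

/-- pointwise bound for the integrand -/
lemma PS_bound {s0 w : ℂ} {η x c Cf ε σ : ℝ} (hη : 0 < η) (hη1 : η ≤ 1) (hc : 0 < c) (hε : 0 ≤ ε)
    (h0 : 0 ≤ s0.re) (hσ : σ ≤ s0.re + c)
    (hf : ∀ s : ℂ, σ ≤ s.re → s.re ≤ 2 → ‖fz s‖ ≤ Cf * (1 + |s.im|) ^ ε)
    (h1 : c ≤ w.re) (h2 : w.re ≤ 2 - s0.re) :
    ‖PS s0 η x w‖ ≤ (1 / c) * (1000 / η ^ 2) * Real.exp (w.re * x) * (Cf * (1 + |s0.im|) ^ ε) *
      (1 + |w.im|) ^ (ε - 2) := by
  have hw0 : 0 < w.re := by linarith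
  have hCf : 0 ≤ Cf := by
    have h3 := (norm_nonneg _).trans (hf (s0 + w) (by rw [Complex.add_re]; linarith)
      (by rw [Complex.add_re]; linarith))
    have h4 : 0 < (1 + |(s0 + w).im|) ^ ε := by positivity
    exact nonneg_of_mul_nonneg_left h3 h4
  have a1 := norm_Lap_step hc h1
  have a2 := norm_phi_sq_le (s := w) hη hη1 hw0 (by linarith)
  have a3 : ‖Complex.exp (w * x)‖ = Real.exp (w.re * x) := by
    rw [Complex.norm_exp]
    simp
  have a4 := hf (s0 + w) (by rw [Complex.add_re]; linarith) (by rw [Complex.add_re]; linarith)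
  have a5 : (1 + |(s0 + w).im|) ^ ε ≤ (1 + |s0.im|) ^ ε * (1 + |w.im|) ^ ε := by
    rw [← Real.mul_rpow (by positivity) (by positivity), Complex.add_im]
    exact Real.rpow_le_rpow (by positivity) one_add_mul hε
  unfold PS
  rw [norm_mul, norm_mul, norm_mul, norm_pow, a3]
  have e1 : (1 + |w.im|) ^ (-2 : ℝ) * (1 + |w.im|) ^ ε = (1 + |w.im|) ^ (ε - 2) := by
    rw [← Real.rpow_add (by positivity)]
    congr 1
    ring
  calc ‖Lap step w‖ * ‖phi η w‖ ^ 2 * Real.exp (w.re * x) * ‖fz (s0 + w)‖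
      ≤ (1 / c) * ((1000 / η ^ 2) * (1 + |w.im|) ^ (-2 : ℝ)) * Real.exp (w.re * x) *
        (Cf * ((1 + |s0.im|) ^ ε * (1 + |w.im|) ^ ε)) := by
        refine mul_le_mul ?_ (a4.trans (mul_le_mul_of_nonneg_left a5 hCf)) (norm_nonneg _) (by positivity)
        refine mul_le_mul_of_nonneg_right ?_ (Real.exp_pos _).le
        exact mul_le_mul a1 a2 (by positivity) (by positivity)
    _ = (1 / c) * (1000 / η ^ 2) * Real.exp (w.re * x) * (Cf * (1 + |s0.im|) ^ ε) *
      ((1 + |w.im|) ^ (-2 : ℝ) * (1 + |w.im|) ^ ε) := by ring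
    _ = _ := by rw [e1]

/-- **Perron formula** with a shift. -/
theorem perron_shift {θ σ η x : ℝ} {s0 : ℂ} (hθ : 1 / 4 ≤ θ)
    (hz : ∀ s : ℂ, θ < s.re → Zs s ≠ 0) (hσ : θ < σ) (hσ2 : σ < 2) (h0 : 0 ≤ s0.re) (h1 : s0.re < σ)
    (hη : 0 < η) (hη1 : η ≤ 1) :
    HasSum (fun m : ℕ => ((ArithmeticFunction.moebius m : ℤ) : ℂ) * (m : ℂ) ^ (-s0) * ct η (x - Real.log m))
      (∫ ξ : ℝ, PS s0 η x (((σ - s0.re : ℝ) : ℂ) + 2 * Real.pi * ξ * Complex.I)) := by
  obtain ⟨Cf, hCf0, hCf⟩ := fz_bound hθ hz hσ (ε := 1 / 2) (by norm_num)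
  set c : ℝ := σ - s0.re with hc
  have hc0 : 0 < c := by rw [hc]; linarith
  set a : ℝ := 2 - s0.re with ha
  have ha0 : 0 < a := by rw [ha]; linarith
  have ha2 : a ≤ 2 := by rw [ha]; linarith
  have hca : c ≤ a := by rw [hc, ha]; linarith
  have hnice : Nice step 1 0 0 := step_nice
  set B : ℝ := (1 / c) * (1000 / η ^ 2) * Real.exp (2 * |x|) * (Cf * (1 + |s0.im|) ^ (1 / 2 : ℝ)) with hB
  have hbd : ∀ w : ℂ, c ≤ w.re → w.re ≤ a → ‖PS s0 η x w‖ ≤ B * (1 + |w.im|) ^ (-(3 / 2 : ℝ)) := by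
    intro w hw1 hw2
    have h2 := PS_bound (s0 := s0) (w := w) (x := x) (ε := 1 / 2) (σ := σ) hη hη1 hc0 (by norm_num) h0
      (by rw [hc]; linarith) hCf hw1 hw2
    have e1 : (1 / 2 - 2 : ℝ) = -(3 / 2) := by norm_num
    rw [e1] at h2
    refine h2.trans ?_
    have h3 : Real.exp (w.re * x) ≤ Real.exp (2 * |x|) := by
      apply Real.exp_le_exp.mpr
      have h5 := le_abs_self x
      have h6 := abs_nonneg x
      nlinarith
    rw [hB]
    gcongr
  have hd : ∀ w : ℂ, c ≤ w.re → w.re ≤ a → DifferentiableAt ℂ (PS s0 η x) w := by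
    intro w hw1 hw2
    have hs0 : w ≠ 0 := by rintro rfl; simp at hw1; linarith
    unfold PS
    have e1 : DifferentiableAt ℂ (Lap step) w := hnice.Lap_differentiableAt (by linarith)
    have e2 := phi_differentiableAt hη hs0
    have e3 : DifferentiableAt ℂ (fun w => fz (s0 + w)) w := by
      have h5 : DifferentiableAt ℂ fz (s0 + w) := fz_differentiableAt (hz (s0 + w) (by
        rw [Complex.add_re, hc] at *
        linarith))
      exact h5.comp w (by fun_prop)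
    fun_prop
  -- shift the line
  have hshift := contour_shift hca hd hbd
  have hline : ∫ ξ : ℝ, PS s0 η x ((c : ℂ) + 2 * Real.pi * ξ * Complex.I) =
      ∫ ξ : ℝ, PS s0 η x ((a : ℂ) + 2 * Real.pi * ξ * Complex.I) := by
    rw [scale_integral, scale_integral, hshift]
  rw [hline]
  set k1 := avg η step with hk1
  set k2 := avg η k1 with hk2
  have hct : ∀ u, ct η u = k2 u := fun u => rfl
  have hn1 : Nice k1 1 0 (0 - η) := hnice.avg hη
  have hn2 : Nice k2 1 0 (0 - η - η) := hn1.avg hη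
  have hLap2 : ∀ s : ℂ, 0 < s.re → Lap k2 s = Lap step s * phi η s ^ 2 := by
    intro s hs
    rw [hk2, hn1.Lap_avg hη hs, hk1, hnice.Lap_avg hη hs]
    ring
  have hre2 : ∀ ξ : ℝ, ((a : ℂ) + 2 * Real.pi * ξ * Complex.I).re = a := by
    intro ξ; simp
  have hLint : Integrable (fun ξ : ℝ => Lap k2 ((a : ℂ) + 2 * Real.pi * ξ * Complex.I)) := by
    refine scale_integrable (H := Lap k2) ?_
    refine vertical_integrable (B := 1 / a * (1000 / η ^ 2)) ?_ ?_
    · intro s hs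
      exact (hn2.Lap_differentiableAt (by rw [hs]; exact ha0)).continuousAt
    · intro s hs
      have hs0 : 0 < s.re := by rw [hs]; exact ha0
      rw [hLap2 s hs0, norm_mul, norm_pow]
      have h1 : ‖Lap step s‖ ≤ 1 / a := norm_Lap_step ha0 hs.ge
      have h2 := norm_phi_sq_le hη hη1 hs0 (hs.le.trans ha2)
      have h3 : (1 + |s.im|) ^ (-2 : ℝ) ≤ (1 + |s.im|) ^ (-(3 / 2 : ℝ)) :=
        Real.rpow_le_rpow_of_exponent_le (by linarith [abs_nonneg s.im]) (by norm_num)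
      calc ‖Lap step s‖ * ‖phi η s‖ ^ 2 ≤ (1 / a) *
            ((1000 / η ^ 2) * (1 + |s.im|) ^ (-2 : ℝ)) := by gcongr
        _ ≤ (1 / a) * ((1000 / η ^ 2) * (1 + |s.im|) ^ (-(3 / 2 : ℝ))) := by gcongr
        _ = _ := by ring
  set F : ℕ → ℝ → ℂ := fun m ξ => Lap k2 ((a : ℂ) + 2 * Real.pi * ξ * Complex.I) *
      Complex.exp (((a : ℂ) + 2 * Real.pi * ξ * Complex.I) * x) *
      LSeries.term (fun n => ((ArithmeticFunction.moebius n : ℤ) : ℂ))
        (s0 + ((a : ℂ) + 2 * Real.pi * ξ * Complex.I)) m with hF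
  have hFeq : ∀ m : ℕ, ∀ ξ : ℝ, F m ξ = ((ArithmeticFunction.moebius m : ℤ) : ℂ) * (m : ℂ) ^ (-s0) *
      (Lap k2 ((a : ℂ) + 2 * Real.pi * ξ * Complex.I) *
      Complex.exp (((a : ℂ) + 2 * Real.pi * ξ * Complex.I) * ((x - Real.log m : ℝ) : ℂ))) := by
    intro m ξ
    rcases Nat.eq_zero_or_pos m with rfl | hm
    · simp [hF, LSeries.term]
    · have hm0 : (m : ℂ) ≠ 0 := by exact_mod_cast hm.ne'
      rw [hF]
      simp only
      rw [LSeries.term_of_ne_zero hm.ne']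
      have e1 : Complex.exp (((a : ℂ) + 2 * Real.pi * ξ * Complex.I) * ((x - Real.log m : ℝ) : ℂ)) =
          Complex.exp (((a : ℂ) + 2 * Real.pi * ξ * Complex.I) * x) /
            (m : ℂ) ^ ((a : ℂ) + 2 * Real.pi * ξ * Complex.I) := by
        rw [Complex.cpow_def_of_ne_zero hm0, ← Complex.exp_sub]
        congr 1
        rw [Complex.ofReal_sub x (Real.log m), Complex.natCast_log]
        ring
      rw [e1, Complex.cpow_add _ _ hm0, Complex.cpow_neg]
      have h5 : (m : ℂ) ^ s0 ≠ 0 := by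
        rw [Ne, Complex.cpow_eq_zero_iff]
        tauto
      have h6 : (m : ℂ) ^ ((a : ℂ) + 2 * Real.pi * ξ * Complex.I) ≠ 0 := by
        rw [Ne, Complex.cpow_eq_zero_iff]
        tauto
      field_simp
  have hFnorm : ∀ m : ℕ, ∀ ξ : ℝ, ‖F m ξ‖ ≤ (Real.exp (a * x) * (1 / (m:ℝ) ^ 2)) *
      ‖Lap k2 ((a : ℂ) + 2 * Real.pi * ξ * Complex.I)‖ := by
    intro m ξ
    rw [hF]
    simp only
    rw [norm_mul, norm_mul]
    have e1 : ‖Complex.exp (((a : ℂ) + 2 * Real.pi * ξ * Complex.I) * x)‖ = Real.exp (a * x) := by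
      rw [Complex.norm_exp]; congr 1; simp
    have e2 : ‖LSeries.term (fun n => ((ArithmeticFunction.moebius n : ℤ) : ℂ))
        (s0 + ((a : ℂ) + 2 * Real.pi * ξ * Complex.I)) m‖ ≤ 1 / (m:ℝ) ^ 2 := by
      rw [LSeries.norm_term_eq, Complex.add_re, hre2]
      split_ifs with hm
      · positivity
      · have h1 : ‖((ArithmeticFunction.moebius m : ℤ) : ℂ)‖ ≤ 1 := by
          rw [Complex.norm_intCast]
          have := ArithmeticFunction.abs_moebius_le_one (n := m)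
          exact_mod_cast this
        have h2 : (m:ℝ) ^ (s0.re + a) = (m:ℝ) ^ 2 := by
          rw [ha, ← Real.rpow_natCast]
          congr 1
          push_cast
          ring
        rw [h2]
        gcongr
    rw [e1]
    have h3 : 0 ≤ ‖Lap k2 ((a : ℂ) + 2 * Real.pi * ξ * Complex.I)‖ := norm_nonneg _
    have h4 : 0 < Real.exp (a * x) := Real.exp_pos _
    calc _ ≤ ‖Lap k2 ((a : ℂ) + 2 * Real.pi * ξ * Complex.I)‖ * Real.exp (a * x) * (1 / (m:ℝ) ^ 2) := by
          gcongr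
      _ = _ := by ring
  have hFint : ∀ m : ℕ, Integrable (F m) := by
    intro m
    refine (hLint.norm.const_mul (Real.exp (a * x) * (1 / (m:ℝ) ^ 2))).mono' ?_
      (Eventually.of_forall fun ξ => hFnorm m ξ)
    have : F m = fun ξ : ℝ => ((ArithmeticFunction.moebius m : ℤ) : ℂ) * (m : ℂ) ^ (-s0) *
      (Lap k2 ((a : ℂ) + 2 * Real.pi * ξ * Complex.I) *
      Complex.exp (((a : ℂ) + 2 * Real.pi * ξ * Complex.I) * ((x - Real.log m : ℝ) : ℂ))) := by
      ext ξ; exact hFeq m ξ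
    rw [this]
    refine AEStronglyMeasurable.const_mul ?_ _
    refine hLint.aestronglyMeasurable.mul (Continuous.aestronglyMeasurable ?_)
    fun_prop
  have hFsum : Summable (fun m : ℕ => ∫ ξ, ‖F m ξ‖) := by
    refine Summable.of_nonneg_of_le (fun m => integral_nonneg fun ξ => norm_nonneg _)
      (f := fun m : ℕ => (Real.exp (a * x) * ∫ ξ : ℝ, ‖Lap k2 ((a : ℂ) + 2 * Real.pi * ξ * Complex.I)‖) *
        (1 / (m:ℝ) ^ 2)) ?_ ?_
    · intro m
      calc ∫ ξ, ‖F m ξ‖ ≤ ∫ ξ : ℝ, (Real.exp (a * x) * (1 / (m:ℝ) ^ 2)) *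
            ‖Lap k2 ((a : ℂ) + 2 * Real.pi * ξ * Complex.I)‖ :=
            integral_mono (hFint m).norm (hLint.norm.const_mul _) (hFnorm m)
        _ = _ := by rw [integral_const_mul]; ring
    · exact (Real.summable_one_div_nat_pow.mpr (by norm_num)).mul_left _
  have key := hasSum_integral_of_summable_integral_norm hFint hFsum
  have e1 : ∀ m : ℕ, ∫ ξ, F m ξ = ((ArithmeticFunction.moebius m : ℤ) : ℂ) * (m : ℂ) ^ (-s0) *
      ct η (x - Real.log m) := by
    intro m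
    simp_rw [hFeq]
    rw [integral_const_mul, hct]
    congr 1
    exact (inversion hn2 ha0 (hn1.avg_continuous η) hLint (x - Real.log m)).symm
  have e2 : ∫ ξ, ∑' m, F m ξ = ∫ ξ : ℝ, PS s0 η x ((a : ℂ) + 2 * Real.pi * ξ * Complex.I) := by
    refine integral_congr_ae (Eventually.of_forall fun ξ => ?_)
    simp only [hF]
    rw [tsum_mul_left]
    have h1 := (moebius_lseries (s := s0 + ((a : ℂ) + 2 * Real.pi * ξ * Complex.I))
      (by rw [Complex.add_re, hre2, ha]; linarith)).LSeries_eq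
    unfold LSeries at h1
    rw [h1]
    unfold PS
    rw [hLap2 _ (by rw [hre2]; exact ha0)]
  simp_rw [e1] at key
  rw [e2] at key
  exact key

lemma integrable_decay_e {ε : ℝ} (hε : ε < 1) : Integrable (fun ξ : ℝ => (1 + |2 * Real.pi * ξ|) ^ (ε - 2)) := by
  have h := integrable_decay' (a := 2 - ε) (by linarith)
  have e : (-(2 - ε) : ℝ) = ε - 2 := by ring
  rwa [e] at h

/-- the twisted smoothed sums of the Moebius function in a zero-free half-plane -/
theorem twist_bound {θ σ ε : ℝ} (hθ : 1 / 4 ≤ θ)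
    (hz : ∀ s : ℂ, θ < s.re → Zs s ≠ 0) (hσ : θ < σ) (hσ2 : σ < 2) {η : ℝ} (hη : 0 < η) (hη1 : η ≤ 1)
    {τ : ℝ} (h0 : 0 ≤ τ) (h1 : τ < σ) (hε : 0 < ε) (hε1 : ε < 1) :
    ∃ C : ℝ, 0 < C ∧ ∀ (x t : ℝ), ∀ S : ℂ,
      HasSum (fun m : ℕ => ((ArithmeticFunction.moebius m : ℤ) : ℂ) *
        (m : ℂ) ^ (-((τ : ℂ) + t * Complex.I)) * ct η (x - Real.log m)) S →
      ‖S‖ ≤ C * Real.exp ((σ - τ) * x) * (1 + |t|) ^ ε := by
  obtain ⟨Cf, hCf0, hCf⟩ := fz_bound hθ hz hσ (ε := ε) hε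
  set c : ℝ := σ - τ with hc
  have hc0 : 0 < c := by rw [hc]; linarith
  set I0 : ℝ := ∫ ξ : ℝ, (1 + |2 * Real.pi * ξ|) ^ (ε - 2) with hI0
  have hI : 0 ≤ I0 := integral_nonneg fun ξ => by positivity
  refine ⟨(1 / c) * (1000 / η ^ 2) * Cf * (I0 + 1), by positivity, fun x t S hS => ?_⟩
  set s0 : ℂ := (τ : ℂ) + t * Complex.I with hs0
  have hre : s0.re = τ := by simp [hs0]
  have him : s0.im = t := by simp [hs0]
  have key := perron_shift (x := x) (s0 := s0) hθ hz hσ hσ2 (by rw [hre]; exact h0) (by rw [hre]; exact h1) hη hη1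
  have hS2 := hS.unique key
  rw [hS2]
  have hb : ∀ ξ : ℝ, ‖PS s0 η x (((σ - s0.re : ℝ) : ℂ) + 2 * Real.pi * ξ * Complex.I)‖ ≤
      ((1 / c) * (1000 / η ^ 2) * Real.exp (c * x) * (Cf * (1 + |t|) ^ ε)) *
      (1 + |2 * Real.pi * ξ|) ^ (ε - 2) := by
    intro ξ
    have h3 := PS_bound (s0 := s0) (w := ((σ - s0.re : ℝ) : ℂ) + 2 * Real.pi * ξ * Complex.I) (x := x)
      (σ := σ) (c := c) hη hη1 hc0 hε.le (by rw [hre]; exact h0) (by rw [hre, hc]; linarith) hCf
      (by simp [hre, hc]) (by simp; linarith)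
    have e1 : (((σ - s0.re : ℝ) : ℂ) + 2 * Real.pi * ξ * Complex.I).re = c := by simp [hre, hc]
    have e2 : (((σ - s0.re : ℝ) : ℂ) + 2 * Real.pi * ξ * Complex.I).im = 2 * Real.pi * ξ := by simp
    rw [e1, e2, him] at h3
    exact h3
  calc _ ≤ ∫ ξ : ℝ, ((1 / c) * (1000 / η ^ 2) * Real.exp (c * x) * (Cf * (1 + |t|) ^ ε)) *
      (1 + |2 * Real.pi * ξ|) ^ (ε - 2) :=
        norm_integral_le_of_norm_le ((integrable_decay_e hε1).const_mul _) (Eventually.of_forall hb)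
    _ = ((1 / c) * (1000 / η ^ 2) * Real.exp (c * x) * (Cf * (1 + |t|) ^ ε)) * I0 := by
        rw [integral_const_mul]
    _ ≤ ((1 / c) * (1000 / η ^ 2) * Real.exp (c * x) * (Cf * (1 + |t|) ^ ε)) * (I0 + 1) := by
        refine mul_le_mul_of_nonneg_left (by linarith) (by positivity)
    _ = _ := by ring

end

end Pool.Agent.K3h81.NB
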