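import Pool.Agent.Helper240.ZU.A1

/-!
# The trivial bound `|ζ(σ + it)| ≤ C (1 + |t|) ^ (1 - σ)` for `0 < σ < 1`
-/

set_option autoImplicit false

namespace Pool.Agent.K3h81.NB

open MeasureTheory Set Complex

lemma rpow_gap {τ x : ℝ} (h0 : 0 < τ) (h1 : τ < 1) (hx : 1 ≤ x) :
    x ^ (-τ) ≤ (1 / (1 - τ)) * (x ^ (1 - τ) - (x - 1) ^ (1 - τ)) := by
  have hx0 : 0 < x := by linarith
  have h1 : (x - 1) ^ (1 - τ) = x ^ (1 - τ) * (1 + -(1/x)) ^ (1 - τ) := by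
    have hy : 0 ≤ 1 + -(1/x) := by
      have : 1 / x ≤ 1 := by rw [div_le_one hx0]; exact hx
      linarith
    rw [← Real.mul_rpow hx0.le hy]
    congr 1
    field_simp
    ring
  have h2 : (1 + -(1/x)) ^ (1 - τ) ≤ 1 + (1 - τ) * (-(1/x)) := by
    apply rpow_one_add_le_one_add_mul_self
    · have : 1 / x ≤ 1 := by rw [div_le_one hx0]; exact hx
      linarith
    · linarith
    · linarith
  have h3 : x ^ (-τ) = x ^ (1 - τ) * (1 / x) := by
    rw [show (-τ) = (1 - τ) + (-1) by ring, Real.rpow_add hx0, Real.rpow_neg_one]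
    ring
  have h4 : 0 < x ^ (1 - τ) := Real.rpow_pos_of_pos hx0 _
  have h5 : 0 < 1 / x := by positivity
  rw [h1, h3]
  have h6 := mul_le_mul_of_nonneg_left h2 h4.le
  have h7 : 0 < 1 - τ := by linarith
  rw [one_div_mul_eq_div, le_div_iff₀ h7]
  nlinarith [mul_pos h4 h5]

lemma sum_rpow {τ : ℝ} (h0 : 0 < τ) (h1 : τ < 1) (N : ℕ) :
    ∑ n ∈ Finset.Icc 1 N, (n : ℝ) ^ (-τ) ≤ (1 / (1 - τ)) * (N : ℝ) ^ (1 - τ) := by
  induction N with
  | zero =>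
    simp
    rw [Real.zero_rpow (by linarith)]
    simp
  | succ N ih =>
    rw [Finset.sum_Icc_succ_top (by omega)]
    have h1 := rpow_gap h0 h1 (x := ((N + 1 : ℕ) : ℝ)) (by push_cast; linarith [Nat.cast_nonneg (α := ℝ) N])
    have h2 : ((N + 1 : ℕ) : ℝ) - 1 = N := by push_cast; ring
    rw [h2] at h1
    linarith

lemma DN_norm_le {τ : ℝ} (h0 : 0 < τ) (h1 : τ < 1) {N : ℕ} {s : ℂ} (hs : s.re = τ) :
    ‖ZU.DN N s‖ ≤ (1 / (1 - τ)) * (N : ℝ) ^ (1 - τ) := by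
  refine le_trans ?_ (sum_rpow h0 h1 N)
  unfold ZU.DN
  refine (norm_sum_le _ _).trans (Finset.sum_le_sum fun n hn => ?_)
  rw [Finset.mem_Icc] at hn
  rw [Complex.norm_natCast_cpow_of_pos (by omega)]
  refine Real.rpow_le_rpow_of_exponent_le (by exact_mod_cast hn.1) ?_
  simp
  linarith

lemma frac_int_le {N : ℕ} (hN : 1 ≤ N) {s : ℂ} (hs : 0 < s.re) :
    ‖∫ u in Ioi (N : ℝ), ((Int.fract u : ℝ) : ℂ) * (u : ℂ) ^ (-s - 1)‖ ≤
      (N : ℝ) ^ (-s.re) / s.re := by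
  have hN0 : (0:ℝ) < N := by exact_mod_cast hN
  have h1 : ∫ t in Ioi (N:ℝ), t ^ (-s.re - 1) = (N : ℝ) ^ (-s.re) / s.re := by
    rw [integral_Ioi_rpow_of_lt (by linarith) hN0]
    have : -s.re - 1 + 1 = -s.re := by ring
    rw [this, neg_div_neg_eq]
  rw [← h1]
  refine norm_integral_le_of_norm_le (integrableOn_Ioi_rpow_of_lt (by linarith) hN0) ?_
  refine (ae_restrict_mem measurableSet_Ioi).mono fun t ht => ?_
  have ht' : (N:ℝ) < t := ht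
  have ht0 : 0 < t := by linarith
  rw [norm_mul, Complex.norm_real, Real.norm_of_nonneg (Int.fract_nonneg t),
    Complex.norm_cpow_eq_rpow_re_of_pos ht0]
  have h2 : (-s - 1).re = -s.re - 1 := by simp
  rw [h2]
  have h3 : 0 ≤ t ^ (-s.re - 1) := (Real.rpow_pos_of_pos ht0 _).le
  have h4 := (Int.fract_lt_one t).le
  calc Int.fract t * t ^ (-s.re - 1) ≤ 1 * t ^ (-s.re - 1) := mul_le_mul_of_nonneg_right h4 h3
    _ = _ := one_mul _

/-- the trivial bound for zeta in the critical strip -/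
theorem zeta_triv {τ : ℝ} (h0 : 0 < τ) (h1 : τ < 1) :
    ∃ C : ℝ, 0 < C ∧ ∀ t : ℝ, ‖riemannZeta ((τ : ℂ) + t * I)‖ ≤ C * (1 + |t|) ^ (1 - τ) := by
  have h1' : 0 < 1 - τ := by linarith
  refine ⟨1 / (1 - τ) + 1 / (1 - τ) + 3 / τ, by positivity, fun t => ?_⟩
  set s : ℂ := (τ : ℂ) + t * I with hs
  have hre : s.re = τ := by simp [hs]
  have him : s.im = t := by simp [hs]
  have hs1 : s ≠ 1 := by
    intro h
    rw [h] at hre
    simp at hre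
    linarith
  set N : ℕ := ⌊1 + |t|⌋₊ with hN
  have hpos : 0 ≤ 1 + |t| := by positivity
  have hN1 : 1 ≤ N := by
    rw [hN]; apply Nat.le_floor; push_cast; linarith [abs_nonneg t]
  have hNle : (N : ℝ) ≤ 1 + |t| := Nat.floor_le hpos
  have hNge : 1 + |t| ≤ 2 * N := by
    have := Nat.lt_floor_add_one (1 + |t|)
    rw [← hN] at this
    have h3 : (1:ℝ) ≤ N := by exact_mod_cast hN1
    linarith
  have hN0 : (0:ℝ) < N := by exact_mod_cast hN1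
  have hN1' : (1:ℝ) ≤ N := by exact_mod_cast hN1
  have hf := ZU.J_a1.zeta_formula N hN1 s (by rw [hre]; linarith) hs1
  rw [hf]
  have hP : 0 < (N : ℝ) ^ (1 - τ) := Real.rpow_pos_of_pos hN0 _
  have b1 : ‖ZU.DN N s‖ ≤ (1 / (1 - τ)) * (N : ℝ) ^ (1 - τ) := DN_norm_le h0 h1 hre
  have b2 : ‖(N : ℂ) ^ (1 - s) / (s - 1)‖ ≤ (1 / (1 - τ)) * (N : ℝ) ^ (1 - τ) := by
    rw [norm_div, Complex.norm_natCast_cpow_of_pos (by omega)]
    have h3 : 1 - τ ≤ ‖s - 1‖ := by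
      have := Complex.abs_re_le_norm (s - 1)
      rw [Complex.sub_re, Complex.one_re, hre, abs_of_nonpos (by linarith)] at this
      linarith
    have h4 : (N:ℝ) ^ (1 - s).re = (N : ℝ) ^ (1 - τ) := by
      rw [Complex.sub_re, Complex.one_re, hre]
    rw [h4, one_div_mul_eq_div]
    exact div_le_div_of_nonneg_left hP.le h1' h3
  have b3 : ‖s * ∫ u in Ioi (N : ℝ), ((Int.fract u : ℝ) : ℂ) * (u : ℂ) ^ (-s - 1)‖ ≤
      (3 / τ) * (N : ℝ) ^ (1 - τ) := by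
    rw [norm_mul]
    have h3 : ‖s‖ ≤ 3 * N := by
      have h4 := Complex.norm_le_abs_re_add_abs_im s
      rw [hre, him, abs_of_nonneg (by linarith : 0 ≤ τ)] at h4
      linarith
    have h4 := frac_int_le hN1 (s := s) (by rw [hre]; linarith)
    rw [hre] at h4
    calc ‖s‖ * ‖∫ u in Ioi (N : ℝ), ((Int.fract u : ℝ) : ℂ) * (u : ℂ) ^ (-s - 1)‖ ≤
        (3 * N) * ((N : ℝ) ^ (-τ) / τ) := by
          refine mul_le_mul h3 h4 (norm_nonneg _) (by positivity)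
      _ = (3 / τ) * (N : ℝ) ^ (1 - τ) := by
          rw [show (1 - τ) = 1 + (-τ) by ring, Real.rpow_add hN0, Real.rpow_one]
          ring
  have h6 : (N : ℝ) ^ (1 - τ) ≤ (1 + |t|) ^ (1 - τ) :=
    Real.rpow_le_rpow hN0.le hNle (by linarith)
  calc ‖ZU.DN N s + (N : ℂ) ^ (1 - s) / (s - 1) -
      s * ∫ u in Ioi (N : ℝ), ((Int.fract u : ℝ) : ℂ) * (u : ℂ) ^ (-s - 1)‖ ≤
      ‖ZU.DN N s‖ + ‖(N : ℂ) ^ (1 - s) / (s - 1)‖ +
        ‖s * ∫ u in Ioi (N : ℝ), ((Int.fract u : ℝ) : ℂ) * (u : ℂ) ^ (-s - 1)‖ :=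
        (norm_sub_le _ _).trans (add_le_add_left (norm_add_le _ _) _)
    _ ≤ (1 / (1 - τ) + 1 / (1 - τ) + 3 / τ) * (N : ℝ) ^ (1 - τ) := by linarith
    _ ≤ _ := mul_le_mul_of_nonneg_left h6 (by positivity)

end Pool.Agent.K3h81.NB
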