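import Pool.Agent.K3h81.NB.P
import Pool.Agent.K3h81.NB.Z
import Pool.Agent.K3h81.NB.M

/-!
# The smoothed Moebius combination of fractional parts
-/

set_option autoImplicit false

namespace Pool.Agent.K3h81.NB

open MeasureTheory Set Complex Filter Topology
open Pool.Agent.H295R2 (Nice step step_nice avg avg2_step_of_nonneg Zs)

noncomputable section

lemma avg_im {k : ℝ → ℂ} {C u₀ η : ℝ} (h : Nice k C 0 u₀) (hk : ∀ u, (k u).im = 0) (u : ℝ) :
    (avg η k u).im = 0 := by
  unfold avg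
  have hi : IntervalIntegrable (fun v => k (u + v)) volume 0 η := by
    have h1 : ∀ v, ‖k (u + v)‖ ≤ C := fun v => by simpa using h.bound (u + v)
    refine (intervalIntegrable_const (c := C)).mono_fun ?_ ?_
    · exact (h.meas.comp (by fun_prop)).aestronglyMeasurable
    · refine Eventually.of_forall fun v => ?_
      rw [Real.norm_of_nonneg h.C_nonneg]
      exact h1 v
  have h2 := Complex.imCLM.intervalIntegral_comp_comm hi
  simp only [Complex.imCLM_apply, hk, intervalIntegral.integral_zero] at h2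
  have e1 : (1 / (η : ℂ)) = ((1 / η : ℝ) : ℂ) := by push_cast; rfl
  rw [e1, Complex.im_ofReal_mul, ← h2, mul_zero]

lemma step_im (u : ℝ) : (step u).im = 0 := by
  unfold Pool.Agent.H295R2.step
  split_ifs <;> simp

lemma half_pos' : (0:ℝ) < 1 / 2 := by norm_num

lemma nice1 : Nice (avg (1/2) step) 1 0 (0 - 1/2) := step_nice.avg half_pos'
lemma nice2 : Nice (avg (1/2) (avg (1/2) step)) 1 0 (0 - 1/2 - 1/2) := nice1.avg half_pos'

/-- the smooth weight -/
def wt (y : ℝ) (n : ℕ) : ℝ := (ct (1/2) (y - Real.log n)).re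

lemma wt_coe (y : ℝ) (n : ℕ) : ((wt y n : ℝ) : ℂ) = ct (1/2) (y - Real.log n) := by
  apply Complex.ext
  · simp [wt]
  · rw [Complex.ofReal_im]
    exact (avg_im nice1 (avg_im step_nice step_im) _).symm

lemma wt_abs (y : ℝ) (n : ℕ) : |wt y n| ≤ 1 := by
  have h := nice2.bound (y - Real.log n)
  rw [zero_mul, Real.exp_zero, mul_one] at h
  have h2 : ‖((wt y n : ℝ) : ℂ)‖ ≤ 1 := by
    rw [wt_coe]
    exact h
  rwa [Complex.norm_real] at h2

lemma wt_one {y : ℝ} {n : ℕ} (h : Real.log n ≤ y) : wt y n = 1 := by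
  unfold wt ct
  rw [avg2_step_of_nonneg half_pos' (by linarith)]
  simp

lemma wt_zero {y : ℝ} {n : ℕ} (h : y + 1 < Real.log n) : wt y n = 0 := by
  unfold wt
  have h2 : ct (1/2) (y - Real.log n) = 0 := nice2.zero _ (by linarith)
  rw [h2]
  simp

/-- the coefficients -/
def cc (y : ℝ) (n : ℕ) : ℝ := ((ArithmeticFunction.moebius n : ℤ) : ℝ) * wt y n

lemma cc_abs (y : ℝ) (n : ℕ) : |cc y n| ≤ 1 := by
  unfold cc
  rw [abs_mul]
  have h1 : |((ArithmeticFunction.moebius n : ℤ) : ℝ)| ≤ 1 := Pool.Agent.H295R2.abs_mu_le n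
  have h2 := wt_abs y n
  nlinarith [abs_nonneg (wt y n), abs_nonneg ((ArithmeticFunction.moebius n : ℤ) : ℝ)]

/-- the Dirichlet polynomial -/
def DD (y : ℝ) (N : ℕ) (s : ℂ) : ℂ := ∑ n ∈ Finset.Icc 1 N, (cc y n : ℂ) * (n : ℂ) ^ (-s)

lemma DD_hasSum {y : ℝ} {N : ℕ} (hN : ∀ m : ℕ, N < m → y + 1 < Real.log m) (s : ℂ) :
    HasSum (fun m : ℕ => ((ArithmeticFunction.moebius m : ℤ) : ℂ) * (m : ℂ) ^ (-s) * ct (1/2) (y - Real.log m))
      (DD y N s) := by
  have hzero : ∀ m ∉ Finset.Icc 1 N,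
      ((ArithmeticFunction.moebius m : ℤ) : ℂ) * (m : ℂ) ^ (-s) * ct (1/2) (y - Real.log m) = 0 := by
    intro m hm
    rcases Nat.eq_zero_or_pos m with rfl | hm0
    · simp
    · have hm1 : N < m := by
        by_contra hcon
        exact hm (Finset.mem_Icc.mpr ⟨hm0, by omega⟩)
      rw [← wt_coe, wt_zero (hN m hm1)]
      simp
  have h := hasSum_sum_of_ne_finset_zero (L := SummationFilter.unconditional ℕ) hzero
  have e : ∑ m ∈ Finset.Icc 1 N, ((ArithmeticFunction.moebius m : ℤ) : ℂ) * (m : ℂ) ^ (-s) * ct (1/2) (y - Real.log m)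
      = DD y N s := by
    unfold DD cc
    refine Finset.sum_congr rfl fun n _ => ?_
    rw [← wt_coe]
    push_cast
    ring
  rwa [e] at h

/-- `∑ μ(d) ⌊u/d⌋ = 1` -/
lemma sum_mu_floor {u : ℝ} (hu : 1 ≤ u) :
    ∑ d ∈ Finset.Icc 1 ⌊u⌋₊, ((ArithmeticFunction.moebius d : ℤ) : ℝ) * ((⌊u / d⌋₊ : ℕ) : ℝ) = 1 := by
  have h := ArithmeticFunction.sum_Ioc_mul_zeta_eq_sum (R := ℝ) (ArithmeticFunction.moebius : ArithmeticFunction ℝ) ⌊u⌋₊
  rw [ArithmeticFunction.coe_moebius_mul_coe_zeta] at h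
  have hT1 : 1 ≤ ⌊u⌋₊ := by
    rw [Nat.one_le_floor_iff]; exact hu
  have h1 : ∑ n ∈ Finset.Ioc 0 ⌊u⌋₊, (1 : ArithmeticFunction ℝ) n = 1 := by
    rw [Finset.sum_eq_single 1]
    · simp
    · intro b _ hb
      exact ArithmeticFunction.one_apply_ne hb
    · intro hnot
      exfalso; apply hnot
      rw [Finset.mem_Ioc]; exact ⟨by omega, hT1⟩
  rw [h1] at h
  have hI : Finset.Icc 1 ⌊u⌋₊ = Finset.Ioc 0 ⌊u⌋₊ := by
    ext n
    simp only [Finset.mem_Icc, Finset.mem_Ioc]
    omega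
  rw [hI, h]
  apply Finset.sum_congr rfl
  intro d _
  rw [Nat.floor_div_natCast]
  simp

/-- the mean `∑ c n / n` -/
def mm (y : ℝ) (N : ℕ) : ℝ := ∑ n ∈ Finset.Icc 1 N, cc y n / n

/-- the error function is `m / x` for `x ≥ e / N` -/
lemma hh_eq {y : ℝ} {N : ℕ} (hN : ∀ m : ℕ, N < m → y < Real.log m) {x : ℝ} (hx : Real.exp (-y) ≤ x) :
    hh (cc y) N x = mm y N / x := by
  have hx0 : 0 < x := (Real.exp_pos _).trans_le hx
  unfold hh mm
  by_cases h1 : x ≤ 1
  · rw [if_pos h1]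
    set u : ℝ := 1 / x with hu
    have hu1 : 1 ≤ u := by rw [hu, le_div_iff₀ hx0]; linarith
    have hu0 : 0 < u := by linarith
    have huy : u ≤ Real.exp y := by
      rw [hu, div_le_iff₀ hx0]
      have h2 : Real.exp y * Real.exp (-y) = 1 := by rw [← Real.exp_add]; simp
      have h3 := mul_le_mul_of_nonneg_left hx (Real.exp_pos y).le
      linarith
    have hlog : Real.log u ≤ y := by
      rw [← Real.log_exp y]
      exact Real.log_le_log hu0 huy
    have hfl : ⌊u⌋₊ ≤ N := by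
      by_contra hcon
      push Not at hcon
      have h4 := hN _ hcon
      have h5 : ((⌊u⌋₊ : ℕ) : ℝ) ≤ u := Nat.floor_le hu0.le
      have h6 : (0:ℝ) < (⌊u⌋₊ : ℕ) := by
        have : 0 < ⌊u⌋₊ := by omega
        exact_mod_cast this
      have h7 := Real.log_le_log h6 h5
      linarith
    have e1 : ∀ n ∈ Finset.Icc 1 N, cc y n * Int.fract (1 / (n * x)) =
        u * (cc y n / n) - cc y n * ((⌊u / n⌋₊ : ℕ) : ℝ) := by
      intro n hn
      have hn0 : (0:ℝ) < n := by exact_mod_cast (Finset.mem_Icc.1 hn).1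
      have e2 : 1 / (n * x) = u / n := by rw [hu]; field_simp
      rw [e2, Int.fract, natCast_floor_eq_intCast_floor (by positivity)]
      ring
    rw [Finset.sum_congr rfl e1, Finset.sum_sub_distrib, ← Finset.mul_sum]
    have e3 : ∑ n ∈ Finset.Icc 1 N, cc y n * ((⌊u / n⌋₊ : ℕ) : ℝ) = 1 := by
      rw [← sum_mu_floor hu1]
      symm
      have hsub : Finset.Icc 1 ⌊u⌋₊ ⊆ Finset.Icc 1 N := Finset.Icc_subset_Icc_right hfl
      rw [← Finset.sum_subset hsub]
      · refine Finset.sum_congr rfl fun n hn => ?_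
        rw [Finset.mem_Icc] at hn
        have hn0 : (0:ℝ) < n := by exact_mod_cast hn.1
        have h5 : (n:ℝ) ≤ u := (Nat.le_floor_iff hu0.le).1 hn.2
        have h6 := Real.log_le_log hn0 h5
        unfold cc
        rw [wt_one (by linarith)]
        ring
      · intro n hn1 hn2
        rw [Finset.mem_Icc] at hn1 hn2
        have hn0 : (0:ℝ) < n := by exact_mod_cast hn1.1
        have h5 : u < n := (Nat.floor_lt hu0.le).1 (by omega)
        have h6 : ⌊u / n⌋₊ = 0 := by
          rw [Nat.floor_eq_zero, div_lt_one hn0]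
          exact h5
        rw [h6]
        simp
    rw [e3, hu]
    ring
  · rw [if_neg h1, zero_add, Finset.sum_div]
    push Not at h1
    refine Finset.sum_congr rfl fun n hn => ?_
    have hn1 : (1:ℝ) ≤ n := by exact_mod_cast (Finset.mem_Icc.1 hn).1
    have hnx : 1 < n * x := by nlinarith
    have h5 : Int.fract (1 / (n * x)) = 1 / (n * x) := by
      refine Int.fract_eq_self.mpr ⟨by positivity, ?_⟩
      rw [div_lt_one (by linarith)]
      exact hnx
    rw [h5]
    field_simp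

/-- crude bound for the error function -/
lemma hh_crude (y : ℝ) (N : ℕ) {x : ℝ} (hx : 0 < x) :
    |hh (cc y) N x| ≤ (1 + N) * min 1 (1 / x) := by
  unfold hh
  by_cases h1 : x ≤ 1
  · rw [if_pos h1, min_eq_left (by rw [le_div_iff₀ hx]; linarith), mul_one]
    refine (abs_add_le _ _).trans ?_
    rw [abs_one]
    have h2 : |∑ n ∈ Finset.Icc 1 N, cc y n * Int.fract (1 / (n * x))| ≤ ∑ n ∈ Finset.Icc 1 N, (1:ℝ) := by
      refine (Finset.abs_sum_le_sum_abs _ _).trans (Finset.sum_le_sum fun n _ => ?_)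
      rw [abs_mul, abs_of_nonneg (Int.fract_nonneg (1 / ((n:ℝ) * x)))]
      have h3 := (Int.fract_lt_one (1 / (n * x))).le
      have h4 := Int.fract_nonneg (1 / (n * x))
      have h5 := cc_abs y n
      nlinarith [abs_nonneg (cc y n)]
    simp only [Finset.sum_const, Nat.card_Icc, Nat.add_sub_cancel, nsmul_eq_mul, mul_one] at h2
    linarith
  · push Not at h1
    rw [if_neg (not_le.2 h1), zero_add, min_eq_right (by rw [div_le_one hx]; exact h1.le)]
    have h2 : |∑ n ∈ Finset.Icc 1 N, cc y n * Int.fract (1 / (n * x))| ≤ ∑ n ∈ Finset.Icc 1 N, (1 / x) := by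
      refine (Finset.abs_sum_le_sum_abs _ _).trans (Finset.sum_le_sum fun n hn => ?_)
      have hn1 : (1:ℝ) ≤ n := by exact_mod_cast (Finset.mem_Icc.1 hn).1
      have hnx : 1 < n * x := by nlinarith
      have h5 : Int.fract (1 / (n * x)) = 1 / (n * x) := by
        refine Int.fract_eq_self.mpr ⟨by positivity, ?_⟩
        rw [div_lt_one (by linarith)]
        exact hnx
      rw [abs_mul, h5, abs_of_nonneg (show 0 ≤ 1 / ((n:ℝ) * x) by positivity)]
      have h6 : 1 / (n * x) ≤ 1 / x := by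
        apply one_div_le_one_div_of_le hx
        nlinarith
      have h7 := cc_abs y n
      have h8 : 0 ≤ 1 / (n * x) := by positivity
      nlinarith [abs_nonneg (cc y n)]
    simp only [Finset.sum_const, Nat.card_Icc, Nat.add_sub_cancel, nsmul_eq_mul] at h2
    have : 0 ≤ 1 / x := by positivity
    nlinarith

end

end Pool.Agent.K3h81.NB
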