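import Pool.Agent.K3h81.NB.U

/-!
# The weighted mean square of the error function, in a zero-free half-plane
-/

set_option autoImplicit false

namespace Pool.Agent.K3h81.NB

open MeasureTheory Set Complex Filter Topology
open Pool.Agent.H295R2 (Zs)

noncomputable section

lemma rpow_min_le {τ x : ℝ} (h0 : 0 < τ) (h1 : τ < 1) (hx : 0 < x) :
    x ^ τ * min 1 (1 / x) ≤ Real.exp (-(min τ (1 - τ)) * |Real.log x|) := by
  rcases le_or_gt x 1 with h | h
  · have hl : Real.log x ≤ 0 := Real.log_nonpos hx.le h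
    have h2 : x ^ τ * min 1 (1 / x) ≤ x ^ τ * 1 :=
      mul_le_mul_of_nonneg_left (min_le_left _ _) (Real.rpow_nonneg hx.le _)
    refine h2.trans ?_
    rw [mul_one, Real.rpow_def_of_pos hx, abs_of_nonpos hl]
    apply Real.exp_le_exp.2
    have := min_le_left τ (1 - τ)
    nlinarith
  · have hl : 0 < Real.log x := Real.log_pos h
    have h2 : x ^ τ * min 1 (1 / x) ≤ x ^ τ * (1 / x) :=
      mul_le_mul_of_nonneg_left (min_le_right _ _) (Real.rpow_nonneg hx.le _)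
    refine h2.trans ?_
    have e : x ^ τ * (1 / x) = x ^ (τ - 1) := by
      rw [Real.rpow_sub_one hx.ne']; ring
    rw [e, Real.rpow_def_of_pos hx, abs_of_pos hl]
    apply Real.exp_le_exp.2
    have := min_le_right τ (1 - τ)
    nlinarith

lemma norm_line_ge {τ : ℝ} (h0 : 0 < τ) (t : ℝ) : (τ / (1 + τ)) * (1 + |t|) ≤ ‖(τ : ℂ) + t * I‖ := by
  have h1 : τ ≤ ‖(τ : ℂ) + t * I‖ := by
    have := Complex.abs_re_le_norm ((τ : ℂ) + t * I)
    simp only [add_re, ofReal_re, mul_re, I_re, mul_zero, ofReal_im, I_im, mul_one, sub_self,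
      add_zero] at this
    exact (le_abs_self _).trans this
  have h2 : |t| ≤ ‖(τ : ℂ) + t * I‖ := by
    have := Complex.abs_im_le_norm ((τ : ℂ) + t * I)
    simpa using this
  rw [div_mul_eq_mul_div, div_le_iff₀ (by linarith)]
  nlinarith

/-- **the weighted mean square** -/
theorem L2_bound {θ σ τ : ℝ} (hθ : 1 / 4 ≤ θ) (hz : ∀ s : ℂ, θ < s.re → Zs s ≠ 0) (hσ : θ < σ)
    (hσ1 : σ < 1) (hτ : 1 / 2 < τ) (hτσ : τ < σ) :
    ∃ C : ℝ, 0 < C ∧ ∀ N : ℕ, 1 ≤ N →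
      IntegrableOn (fun x => x ^ (2 * τ - 1) * hh (cc (Real.log N - 1)) N x ^ 2) (Ioi 0) ∧
      ∫ x in Ioi (0 : ℝ), x ^ (2 * τ - 1) * hh (cc (Real.log N - 1)) N x ^ 2 ≤
        C * (N : ℝ) ^ (2 * (σ - τ)) := by
  set ε : ℝ := (τ - 1 / 2) / 2 with hε
  have hε0 : 0 < ε := by rw [hε]; linarith
  have hε1 : ε < 1 := by rw [hε]; linarith
  set a : ℝ := τ - ε with ha
  have ha1 : 1 / 2 < a := by rw [ha, hε]; linarith
  have hτ0 : 0 < τ := by linarith
  have hτ1 : τ < 1 := by linarith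
  obtain ⟨C1, hC1, h1⟩ := twist_bound hθ hz hσ (by linarith) half_pos' (by norm_num) hτ0.le hτσ hε0 hε1
  obtain ⟨C2, hC2, h2⟩ := zeta_triv hτ0 hτ1
  set B0 : ℝ := (1 + C1 * C2) * ((1 + τ) / τ) with hB0
  have hB0' : 0 < B0 := by positivity
  set I1 : ℝ := ∫ ξ : ℝ, (1 + |2 * Real.pi * ξ|) ^ (-(2 * a)) with hI1
  have hI1' : 0 ≤ I1 := integral_nonneg fun ξ => by positivity
  refine ⟨B0 ^ 2 * (I1 + 1), by positivity, fun N hN => ?_⟩
  have hN0 : (0:ℝ) < N := by exact_mod_cast hN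
  have hN1 : (1:ℝ) ≤ N := by exact_mod_cast hN
  set y : ℝ := Real.log N - 1 with hy
  have hcut : ∀ m : ℕ, N < m → y + 1 < Real.log m := by
    intro m hm
    have : Real.log N < Real.log m := Real.log_lt_log hN0 (by exact_mod_cast hm)
    rw [hy]
    linarith
  have hP : 1 ≤ (N:ℝ) ^ (σ - τ) := Real.one_le_rpow hN1 (by linarith)
  have hexp : Real.exp ((σ - τ) * y) ≤ (N:ℝ) ^ (σ - τ) := by
    rw [Real.rpow_def_of_pos hN0]
    apply Real.exp_le_exp.2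
    rw [hy]
    nlinarith
  have hB : ∀ t : ℝ, ‖mellin (fun x => ((hh (cc y) N x : ℝ) : ℂ)) ((τ : ℂ) + t * I)‖ ≤
      (B0 * (N:ℝ) ^ (σ - τ)) * (1 + |t|) ^ (-a) := by
    intro t
    set s : ℂ := (τ : ℂ) + t * I with hs
    have hre : s.re = τ := by simp [hs]
    rw [mellin_hh _ _ (by rw [hre]; exact hτ0) (by rw [hre]; exact hτ1)]
    have hD : (∑ n ∈ Finset.Icc 1 N, ((cc y n : ℝ) : ℂ) * (n : ℂ) ^ (-s)) = DD y N s := rfl
    rw [hD, norm_div]
    have hD1 := h1 y t (DD y N s) (DD_hasSum hcut s)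
    have hz1 := h2 t
    have hT : 1 ≤ 1 + |t| := by linarith [abs_nonneg t]
    have hT0 : 0 < 1 + |t| := by linarith
    have hnum : ‖1 - riemannZeta s * DD y N s‖ ≤
        (1 + C1 * C2) * (N:ℝ) ^ (σ - τ) * (1 + |t|) ^ (1 - τ + ε) := by
      have h5 : 1 ≤ (1 + |t|) ^ (1 - τ + ε) := Real.one_le_rpow hT (by linarith)
      have h6 : ‖riemannZeta s * DD y N s‖ ≤ C1 * C2 * (N:ℝ) ^ (σ - τ) * (1 + |t|) ^ (1 - τ + ε) := by
        rw [norm_mul, Real.rpow_add hT0]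
        calc ‖riemannZeta s‖ * ‖DD y N s‖ ≤ (C2 * (1 + |t|) ^ (1 - τ)) *
              (C1 * (N:ℝ) ^ (σ - τ) * (1 + |t|) ^ ε) := by
              refine mul_le_mul hz1 (hD1.trans ?_) (norm_nonneg _) (by positivity)
              gcongr
          _ = _ := by ring
      have h7 : 1 ≤ (N:ℝ) ^ (σ - τ) * (1 + |t|) ^ (1 - τ + ε) := by nlinarith
      calc ‖1 - riemannZeta s * DD y N s‖ ≤ ‖(1:ℂ)‖ + ‖riemannZeta s * DD y N s‖ := norm_sub_le _ _
        _ ≤ 1 * ((N:ℝ) ^ (σ - τ) * (1 + |t|) ^ (1 - τ + ε)) +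
            C1 * C2 * (N:ℝ) ^ (σ - τ) * (1 + |t|) ^ (1 - τ + ε) := by
            rw [norm_one]
            linarith
        _ = _ := by ring
    have hden := norm_line_ge hτ0 t
    have hden0 : 0 < (τ / (1 + τ)) * (1 + |t|) := by positivity
    calc ‖1 - riemannZeta s * DD y N s‖ / ‖s‖ ≤
        ((1 + C1 * C2) * (N:ℝ) ^ (σ - τ) * (1 + |t|) ^ (1 - τ + ε)) / ((τ / (1 + τ)) * (1 + |t|)) := by
          refine div_le_div₀ (by positivity) hnum hden0 hden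
      _ = (B0 * (N:ℝ) ^ (σ - τ)) * ((1 + |t|) ^ (1 - τ + ε) * (1 + |t|) ^ (-1 : ℝ)) := by
          rw [hB0, Real.rpow_neg_one]
          field_simp
      _ = _ := by
          rw [← Real.rpow_add hT0]
          congr 2
          rw [ha]
          ring
  have hκ : 0 < min τ (1 - τ) := lt_min hτ0 (by linarith)
  have key := mellin_planch (h := hh (cc y) N) (hh_meas _ _) (σ := τ) (κ := min τ (1 - τ)) (K := 1 + N)
    (B := B0 * (N:ℝ) ^ (σ - τ)) (a := a) hκ (fun x hx => by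
      have h3 := hh_crude y N hx
      have h4 := rpow_min_le hτ0 hτ1 hx
      have h5 : 0 ≤ x ^ τ := Real.rpow_nonneg hx.le _
      calc x ^ τ * |hh (cc y) N x| ≤ x ^ τ * ((1 + N) * min 1 (1 / x)) := mul_le_mul_of_nonneg_left h3 h5
        _ = (1 + N) * (x ^ τ * min 1 (1 / x)) := by ring
        _ ≤ (1 + N) * Real.exp (-(min τ (1 - τ)) * |Real.log x|) :=
            mul_le_mul_of_nonneg_left h4 (by positivity)) ha1 hB
  refine ⟨key.1, key.2.trans ?_⟩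
  have e1 : (B0 * (N:ℝ) ^ (σ - τ)) ^ 2 = B0 ^ 2 * (N:ℝ) ^ (2 * (σ - τ)) := by
    rw [mul_pow, ← Real.rpow_natCast ((N:ℝ) ^ (σ - τ)), ← Real.rpow_mul hN0.le]
    congr 2
    push_cast
    ring
  rw [e1, ← hI1]
  have h6 : 0 ≤ (N:ℝ) ^ (2 * (σ - τ)) := by positivity
  have h7 : 0 ≤ B0 ^ 2 * (N:ℝ) ^ (2 * (σ - τ)) := by positivity
  nlinarith

end

end Pool.Agent.K3h81.NB
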