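import Pool.Agent.K3h81.NB.V

/-!
# The upper bound for the distance in `L^p`, `1 ≤ p < 2`
-/

set_option autoImplicit false

namespace Pool.Agent.K3h81.NB

open MeasureTheory Set Filter Topology
open Pool.Agent.H295R2 (Zs)

set_option maxHeartbeats 1000000

noncomputable section

lemma point_ineq {p b r q : ℝ} (hp1 : 1 ≤ p) (hp2 : p < 2) (hr : 0 ≤ r) (hq : 0 < q) :
    r ^ p ≤ r ^ 2 * q ^ b + q ^ (-(b * p / (2 - p))) := by
  have h2p : 0 < 2 - p := by linarith
  have hA : 0 ≤ r ^ 2 * q ^ b := by positivity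
  have hB : 0 ≤ q ^ (-(b * p / (2 - p))) := by positivity
  rcases eq_or_lt_of_le hr with h0 | h0
  · rw [← h0, Real.zero_rpow (by linarith)]
    rw [← h0] at hA
    linarith
  rcases le_or_gt 1 (r ^ (2 - p) * q ^ b) with h | h
  · have h1 : 0 ≤ r ^ p := Real.rpow_nonneg hr _
    have h2 : r ^ p * (r ^ (2 - p) * q ^ b) = r ^ 2 * q ^ b := by
      rw [← mul_assoc, ← Real.rpow_add h0]
      have : p + (2 - p) = 2 := by ring
      rw [this]
      norm_num
    nlinarith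
  · have hqb : 0 < q ^ b := Real.rpow_pos_of_pos hq _
    have h1 : r ^ (2 - p) ≤ q ^ (-b) := by
      rw [Real.rpow_neg hq.le, ← one_div, le_div_iff₀ hqb]
      exact h.le
    have h2 : (r ^ (2 - p)) ^ (p / (2 - p)) ≤ (q ^ (-b)) ^ (p / (2 - p)) :=
      Real.rpow_le_rpow (by positivity) h1 (by positivity)
    rw [← Real.rpow_mul hr, ← Real.rpow_mul hq.le] at h2
    have e1 : (2 - p) * (p / (2 - p)) = p := by field_simp
    have e2 : -b * (p / (2 - p)) = -(b * p / (2 - p)) := by ring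
    rw [e1, e2] at h2
    linarith

lemma hh_int (c : ℕ → ℝ) (N : ℕ) {K p : ℝ} (hp : 0 ≤ p) (hK : ∀ x, 0 < x → |hh c N x| ≤ K) {a b : ℝ} (ha : 0 ≤ a) :
    IntegrableOn (fun x => |hh c N x| ^ p) (Ioc a b) := by
  refine Measure.integrableOn_of_bounded (M := K ^ p) (by simp) ?_ ?_
  · exact ((hh_meas c N).abs.pow_const p).aestronglyMeasurable
  · refine (ae_restrict_mem measurableSet_Ioc).mono fun x hx => ?_
    rw [Real.norm_of_nonneg (by positivity)]
    exact Real.rpow_le_rpow (abs_nonneg _) (hK x (lt_of_le_of_lt ha hx.1)) hp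

/-- **the upper bound** -/
theorem upper {p θ σ : ℝ} (hp1 : 1 ≤ p) (hp2 : p < 2) (hθ : 1 / 2 ≤ θ)
    (hz : ∀ s : ℂ, θ < s.re → Zs s ≠ 0) (hσ : θ < σ) (hpσ : p * σ < 1) :
    ∃ C : ℝ, 0 < C ∧ ∀ N : ℕ, 1 ≤ N →
      ∫ x in Ioc (0:ℝ) 1, |hh (cc (Real.log N - 1)) N x| ^ p ≤
        C * (N : ℝ) ^ (p * σ - 1) * (1 + Real.log N) := by
  have hσ0 : 0 < σ := by linarith
  have hσ1 : σ < 1 := by nlinarith
  have h2p : 0 < 2 - p := by linarith
  set τ : ℝ := (1 / 2 + σ) / 2 with hτ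
  have hτ1 : 1 / 2 < τ := by rw [hτ]; linarith
  have hτσ : τ < σ := by rw [hτ]; linarith
  have hpτ : p * τ < 1 := by nlinarith
  obtain ⟨C0, hC0, hJ⟩ := L2_bound (by linarith) hz hσ hσ1 hτ1 hτσ
  set b : ℝ := 2 * τ - 1 with hb
  have hb0 : 0 < b := by rw [hb]; linarith
  set e : ℝ := b * p / (2 - p) with he
  have he0 : 0 ≤ e := by positivity
  have he1 : e < 1 := by
    rw [he, div_lt_one h2p, hb]
    nlinarith
  set E : ℝ := Real.exp 1 with hE
  have hE0 : 0 < E := Real.exp_pos _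
  have hE1 : 1 ≤ E := by rw [hE]; exact Real.one_le_exp (by norm_num)
  set C3 : ℝ := Real.sqrt (2 * C0 * E ^ (2 - 2 * τ)) with hC3
  have hC30 : 0 ≤ C3 := Real.sqrt_nonneg _
  refine ⟨C0 + E / (1 - e) + C3 ^ p, by
    have : 0 < 1 - e := by linarith
    positivity, fun N hN => ?_⟩
  have hN0 : (0:ℝ) < N := by exact_mod_cast hN
  have hN1 : (1:ℝ) ≤ N := by exact_mod_cast hN
  have hlog : 0 ≤ Real.log N := Real.log_nonneg hN1
  set y : ℝ := Real.log N - 1 with hy
  obtain ⟨j1, j2⟩ := hJ N hN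
  rw [← hy] at j1 j2
  set h : ℝ → ℝ := hh (cc y) N with hh'
  set β : ℝ := Real.exp (-y) with hβ
  have hβ0 : 0 < β := Real.exp_pos _
  have hβe : β = E / N := by
    rw [hβ, hy, hE, neg_sub, Real.exp_sub, Real.exp_log hN0]
  have hcut : ∀ m : ℕ, N < m → y < Real.log m := by
    intro m hm
    have : Real.log N < Real.log m := Real.log_lt_log hN0 (by exact_mod_cast hm)
    rw [hy]
    linarith
  set m : ℝ := mm y N with hm
  have hform : ∀ x, β ≤ x → h x = m / x := fun x hx => hh_eq hcut hx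
  have hK : ∀ x, 0 < x → |h x| ≤ 1 + N := by
    intro x hx
    have h1 := hh_crude y N hx
    have h2 : min 1 (1 / x) ≤ 1 := min_le_left _ _
    nlinarith
  set J : ℝ := ∫ x in Ioi (0 : ℝ), x ^ b * h x ^ 2 with hJdef
  have hJ0 : 0 ≤ J := by
    refine setIntegral_nonneg measurableSet_Ioi fun x hx => ?_
    have : (0:ℝ) < x := hx
    positivity
  -- the mean
  have hm2 : m ^ 2 ≤ 2 * C0 * E ^ (2 - 2 * τ) * (N:ℝ) ^ (2 * σ - 2) := by
    have h1 : ∫ x in Ioi β, x ^ b * h x ^ 2 = m ^ 2 * (β ^ (2 * τ - 2) / (2 - 2 * τ)) := by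
      have e1 : ∀ x ∈ Ioi β, x ^ b * h x ^ 2 = m ^ 2 * x ^ (2 * τ - 3) := by
        intro x hx
        have hx1 : β < x := hx
        have hx0 : 0 < x := hβ0.trans hx1
        rw [hform x hx1.le]
        have e2 : x ^ (2 * τ - 3) = x ^ b * x ^ (-2 : ℝ) := by
          rw [← Real.rpow_add hx0]
          congr 1
          rw [hb]
          ring
        rw [e2, Real.rpow_neg hx0.le]
        norm_num
        field_simp
      rw [setIntegral_congr_fun measurableSet_Ioi e1, integral_const_mul,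
        integral_Ioi_rpow_of_lt (by linarith) hβ0]
      have e3 : 2 * τ - 3 + 1 = -(2 - 2 * τ) := by ring
      rw [e3, neg_div_neg_eq]
      have e4 : -(2 - 2 * τ) = 2 * τ - 2 := by ring
      rw [e4]
    have h2 : ∫ x in Ioi β, x ^ b * h x ^ 2 ≤ J := by
      refine setIntegral_mono_set j1 ?_ ?_
      · refine (ae_restrict_mem measurableSet_Ioi).mono fun x hx => ?_
        have : (0:ℝ) < x := hx
        simp only [Pi.zero_apply]
        positivity
      · exact (Ioi_subset_Ioi hβ0.le).eventuallyLE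
    rw [h1] at h2
    have hd : 0 < 2 - 2 * τ := by linarith
    have h3 : β ^ (2 * τ - 2) * β ^ (2 - 2 * τ) = 1 := by
      rw [← Real.rpow_add hβ0]
      have : 2 * τ - 2 + (2 - 2 * τ) = 0 := by ring
      rw [this, Real.rpow_zero]
    have h4 : m ^ 2 = (m ^ 2 * (β ^ (2 * τ - 2) / (2 - 2 * τ))) * ((2 - 2 * τ) * β ^ (2 - 2 * τ)) := by
      calc m ^ 2 = m ^ 2 * (β ^ (2 * τ - 2) * β ^ (2 - 2 * τ)) := by rw [h3, mul_one]
        _ = _ := by
          have hne : (2 - 2 * τ) ≠ 0 := hd.ne'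
          generalize (2 - 2 * τ) = q at hne
          generalize β ^ (2 * τ - 2) = r
          field_simp
    have h5 : 0 ≤ (2 - 2 * τ) * β ^ (2 - 2 * τ) := by positivity
    have h6 : β ^ (2 - 2 * τ) = E ^ (2 - 2 * τ) * (N:ℝ) ^ (2 * τ - 2) := by
      rw [hβe, Real.div_rpow hE0.le hN0.le, div_eq_mul_inv, ← Real.rpow_neg hN0.le]
      congr 2
      ring
    rw [h4]
    calc _ ≤ (C0 * (N : ℝ) ^ (2 * (σ - τ))) * ((2 - 2 * τ) * β ^ (2 - 2 * τ)) :=
          mul_le_mul_of_nonneg_right (h2.trans j2) h5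
      _ = (2 - 2 * τ) * (C0 * E ^ (2 - 2 * τ) * ((N : ℝ) ^ (2 * (σ - τ)) * (N:ℝ) ^ (2 * τ - 2))) := by
          rw [h6]; ring
      _ ≤ 2 * (C0 * E ^ (2 - 2 * τ) * ((N : ℝ) ^ (2 * (σ - τ)) * (N:ℝ) ^ (2 * τ - 2))) := by
          refine mul_le_mul_of_nonneg_right (by linarith) (by positivity)
      _ = _ := by
          rw [← Real.rpow_add hN0]
          have : 2 * (σ - τ) + (2 * τ - 2) = 2 * σ - 2 := by ring
          rw [this]
          ring
  have hmabs : |m| ≤ C3 * (N:ℝ) ^ (σ - 1) := by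
    have h1 : |m| = Real.sqrt (m ^ 2) := (Real.sqrt_sq_eq_abs m).symm
    rw [h1, hC3]
    have h2 : (N:ℝ) ^ (σ - 1) = Real.sqrt ((N:ℝ) ^ (2 * σ - 2)) := by
      rw [Real.sqrt_eq_rpow, ← Real.rpow_mul hN0.le]
      congr 1
      ring
    rw [h2, ← Real.sqrt_mul (by positivity)]
    exact Real.sqrt_le_sqrt hm2
  -- splitting the integral
  have hi1 : IntegrableOn (fun x => |h x| ^ p) (Ioc 0 β) := hh_int _ _ (by linarith) hK le_rfl
  have hi2 : IntegrableOn (fun x => |h x| ^ p) (Ioc β 1) := hh_int _ _ (by linarith) hK hβ0.le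
  have hsplit : ∫ x in Ioc (0:ℝ) 1, |h x| ^ p ≤ (∫ x in Ioc 0 β, |h x| ^ p) + ∫ x in Ioc β 1, |h x| ^ p := by
    rw [← setIntegral_union (by
      rw [Set.disjoint_left]
      intro x hx1 hx2
      exact absurd hx1.2 (not_le.2 hx2.1)) measurableSet_Ioc hi1 hi2]
    refine setIntegral_mono_set (hi1.union hi2) ?_ ?_
    · exact Eventually.of_forall fun x => by positivity
    · refine LE.le.eventuallyLE ?_
      intro x hx
      rcases le_or_gt x β with h5 | h5
      · exact Or.inl ⟨hx.1, h5⟩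
      · exact Or.inr ⟨h5, hx.2⟩
  -- first part
  have hpart1 : ∫ x in Ioc 0 β, |h x| ^ p ≤ (C0 + E / (1 - e)) * (N:ℝ) ^ (p * σ - 1) := by
    set A : ℝ := (N:ℝ) ^ σ with hA
    have hA0 : 0 < A := Real.rpow_pos_of_pos hN0 _
    have hpt : ∀ x ∈ Ioc 0 β, |h x| ^ p ≤
        A ^ p * ((A ^ (-2 : ℝ) * β ^ (-b)) * (x ^ b * h x ^ 2) + β ^ e * x ^ (-e)) := by
      intro x hx
      have hx0 : 0 < x := hx.1
      have h1 := point_ineq (b := b) hp1 hp2 (show 0 ≤ |h x| / A by positivity) (show 0 < x / β by positivity)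
      rw [Real.div_rpow (abs_nonneg _) hA0.le] at h1
      have hAp : 0 < A ^ p := Real.rpow_pos_of_pos hA0 _
      rw [div_le_iff₀ hAp] at h1
      refine h1.trans (le_of_eq ?_)
      rw [mul_comm]
      congr 1
      rw [div_pow, sq_abs, Real.div_rpow hx0.le hβ0.le, Real.div_rpow hx0.le hβ0.le, ← he,
        Real.rpow_neg hβ0.le e, Real.rpow_neg hβ0.le b, Real.rpow_neg hA0.le]
      have : A ^ (2:ℝ) = A ^ 2 := by norm_num
      rw [this]
      field_simp
    have hi3 : IntegrableOn (fun x => x ^ b * h x ^ 2) (Ioc 0 β) := j1.mono_set Ioc_subset_Ioi_self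
    have hi4 : IntegrableOn (fun x : ℝ => x ^ (-e)) (Ioc 0 β) := by
      rw [← intervalIntegrable_iff_integrableOn_Ioc_of_le hβ0.le]
      exact intervalIntegral.intervalIntegrable_rpow' (by linarith)
    have hI4 : ∫ x in Ioc 0 β, x ^ (-e) = β ^ (1 - e) / (1 - e) := by
      rw [← intervalIntegral.integral_of_le hβ0.le, integral_rpow (Or.inl (by linarith))]
      have e5 : -e + 1 = 1 - e := by ring
      rw [e5, Real.zero_rpow (by linarith), sub_zero]
    have hI3 : ∫ x in Ioc 0 β, x ^ b * h x ^ 2 ≤ J := by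
      refine setIntegral_mono_set j1 ?_ ?_
      · refine (ae_restrict_mem measurableSet_Ioi).mono fun x hx => ?_
        have : (0:ℝ) < x := hx
        simp only [Pi.zero_apply]
        positivity
      · exact Ioc_subset_Ioi_self.eventuallyLE
    have hi34 : IntegrableOn (fun x => A ^ p * ((A ^ (-2 : ℝ) * β ^ (-b)) * (x ^ b * h x ^ 2) +
        β ^ e * x ^ (-e))) (Ioc 0 β) := by
      refine Integrable.const_mul (f := fun x => (A ^ (-2 : ℝ) * β ^ (-b)) * (x ^ b * h x ^ 2) +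
        β ^ e * x ^ (-e)) ?_ _
      exact Integrable.add (hi3.const_mul _) (hi4.const_mul _)
    have h6 : ∫ x in Ioc 0 β, |h x| ^ p ≤ A ^ p * ((A ^ (-2 : ℝ) * β ^ (-b)) * J +
        β ^ e * (β ^ (1 - e) / (1 - e))) := by
      calc ∫ x in Ioc 0 β, |h x| ^ p ≤ ∫ x in Ioc 0 β,
            A ^ p * ((A ^ (-2 : ℝ) * β ^ (-b)) * (x ^ b * h x ^ 2) + β ^ e * x ^ (-e)) :=
            setIntegral_mono_on hi1 hi34 measurableSet_Ioc hpt
        _ = A ^ p * ((A ^ (-2 : ℝ) * β ^ (-b)) * (∫ x in Ioc 0 β, x ^ b * h x ^ 2) +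
              β ^ e * ∫ x in Ioc 0 β, x ^ (-e)) := by
            rw [integral_const_mul, integral_add (hi3.const_mul _) (hi4.const_mul _),
              integral_const_mul, integral_const_mul]
        _ ≤ _ := by
            rw [hI4]
            gcongr
    refine h6.trans ?_
    have h7 : A ^ p * ((A ^ (-2 : ℝ) * β ^ (-b)) * J) ≤ C0 * (N:ℝ) ^ (p * σ - 1) := by
      have hβb : β ^ (-b) ≤ (N:ℝ) ^ b := by
        rw [hβe, Real.div_rpow hE0.le hN0.le, Real.rpow_neg hN0.le, div_inv_eq_mul]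
        have : E ^ (-b) ≤ 1 := Real.rpow_le_one_of_one_le_of_nonpos hE1 (by linarith)
        have h8 : 0 ≤ (N:ℝ) ^ b := by positivity
        nlinarith
      calc A ^ p * ((A ^ (-2 : ℝ) * β ^ (-b)) * J) ≤
            A ^ p * ((A ^ (-2 : ℝ) * (N:ℝ) ^ b) * (C0 * (N : ℝ) ^ (2 * (σ - τ)))) := by
            gcongr
        _ = C0 * ((N:ℝ) ^ (σ * p) * (N:ℝ) ^ (σ * (-2)) * (N:ℝ) ^ b * (N:ℝ) ^ (2 * (σ - τ))) := by
            rw [hA, ← Real.rpow_mul hN0.le, ← Real.rpow_mul hN0.le]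
            ring
        _ = _ := by
            rw [← Real.rpow_add hN0, ← Real.rpow_add hN0, ← Real.rpow_add hN0]
            congr 2
            rw [hb]
            ring
    have h8 : A ^ p * (β ^ e * (β ^ (1 - e) / (1 - e))) = E / (1 - e) * (N:ℝ) ^ (p * σ - 1) := by
      have h9 : β ^ e * (β ^ (1 - e) / (1 - e)) = β / (1 - e) := by
        rw [← mul_div_assoc, ← Real.rpow_add hβ0]
        have : e + (1 - e) = 1 := by ring
        rw [this, Real.rpow_one]
      rw [h9, hβe, hA, ← Real.rpow_mul hN0.le]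
      have h10 : (N:ℝ) ^ (p * σ - 1) = (N:ℝ) ^ (σ * p) * (N:ℝ)⁻¹ := by
        rw [← Real.rpow_neg_one, ← Real.rpow_add hN0]
        congr 1
        ring
      rw [h10]
      ring
    rw [mul_add, h8]
    linarith
  -- second part
  have hpart2 : ∫ x in Ioc β 1, |h x| ^ p ≤ C3 ^ p * (N:ℝ) ^ (p * σ - 1) * Real.log N := by
    have e9 : (N:ℝ) ^ ((σ - 1) * p) * (N:ℝ) ^ (p - 1) = (N:ℝ) ^ (p * σ - 1) := by
      rw [← Real.rpow_add hN0]
      congr 1
      ring
    rcases le_or_gt β 1 with hβ1 | hβ1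
    · have hpt : ∀ x ∈ Ioc β 1, |h x| ^ p ≤ (C3 ^ p * (N:ℝ) ^ (p * σ - 1)) * x⁻¹ := by
        intro x hx
        have hx0 : 0 < x := hβ0.trans hx.1
        rw [hform x hx.1.le, abs_div, abs_of_pos hx0, Real.div_rpow (abs_nonneg _) hx0.le]
        have h1 : |m| ^ p ≤ C3 ^ p * (N:ℝ) ^ ((σ - 1) * p) := by
          rw [Real.rpow_mul hN0.le, ← Real.mul_rpow hC30 (by positivity)]
          exact Real.rpow_le_rpow (abs_nonneg _) hmabs (by linarith)
        have h2 : (x ^ p)⁻¹ ≤ (N:ℝ) ^ (p - 1) * x⁻¹ := by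
          have h3 : (x ^ p)⁻¹ = x ^ (-(p - 1)) * x⁻¹ := by
            rw [← Real.rpow_neg hx0.le, ← Real.rpow_neg_one, ← Real.rpow_add hx0]
            congr 1
            ring
          rw [h3]
          refine mul_le_mul_of_nonneg_right ?_ (by positivity)
          have h4 : (1 / (N:ℝ)) ≤ x := by
            have h5 : 1 / (N:ℝ) ≤ β := by
              rw [hβe]
              exact div_le_div_of_nonneg_right hE1 hN0.le
            linarith [hx.1]
          calc x ^ (-(p - 1)) ≤ (1 / (N:ℝ)) ^ (-(p - 1)) :=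
                Real.rpow_le_rpow_of_nonpos (by positivity) h4 (by linarith)
            _ = (N:ℝ) ^ (p - 1) := by
                rw [one_div, Real.inv_rpow hN0.le, Real.rpow_neg hN0.le, inv_inv]
        rw [div_eq_mul_inv]
        calc |m| ^ p * (x ^ p)⁻¹ ≤ (C3 ^ p * (N:ℝ) ^ ((σ - 1) * p)) * ((N:ℝ) ^ (p - 1) * x⁻¹) := by
              refine mul_le_mul h1 h2 (by positivity) (by positivity)
          _ = C3 ^ p * ((N:ℝ) ^ ((σ - 1) * p) * (N:ℝ) ^ (p - 1)) * x⁻¹ := by ring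
          _ = (C3 ^ p * (N:ℝ) ^ (p * σ - 1)) * x⁻¹ := by rw [e9]
      have hi5 : IntegrableOn (fun x : ℝ => x⁻¹) (Ioc β 1) := by
        rw [← intervalIntegrable_iff_integrableOn_Ioc_of_le hβ1]
        refine intervalIntegral.intervalIntegrable_inv (fun x hx => ?_) continuousOn_id
        rw [uIcc_of_le hβ1] at hx
        exact (hβ0.trans_le hx.1).ne'
      calc ∫ x in Ioc β 1, |h x| ^ p ≤ ∫ x in Ioc β 1, (C3 ^ p * (N:ℝ) ^ (p * σ - 1)) * x⁻¹ :=
            setIntegral_mono_on hi2 (hi5.const_mul _) measurableSet_Ioc hpt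
        _ = (C3 ^ p * (N:ℝ) ^ (p * σ - 1)) * Real.log (1 / β) := by
            rw [integral_const_mul, ← intervalIntegral.integral_of_le hβ1, integral_inv_of_pos hβ0 one_pos]
        _ ≤ _ := by
            refine mul_le_mul_of_nonneg_left ?_ (by positivity)
            rw [one_div, Real.log_inv, hβ, Real.log_exp, neg_neg, hy]
            linarith
    · rw [Ioc_eq_empty (by linarith), setIntegral_empty]
      positivity
  have hX : 0 ≤ (N:ℝ) ^ (p * σ - 1) := by positivity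
  have hY : 0 ≤ C0 + E / (1 - e) := by
    have : 0 < 1 - e := by linarith
    positivity
  have hZ : 0 ≤ C3 ^ p := by positivity
  calc ∫ x in Ioc (0:ℝ) 1, |h x| ^ p ≤ (C0 + E / (1 - e)) * (N:ℝ) ^ (p * σ - 1) +
        C3 ^ p * (N:ℝ) ^ (p * σ - 1) * Real.log N := by linarith
    _ ≤ (C0 + E / (1 - e)) * (N:ℝ) ^ (p * σ - 1) * (1 + Real.log N) +
        C3 ^ p * (N:ℝ) ^ (p * σ - 1) * (1 + Real.log N) := by
        have h1 : 0 ≤ (C0 + E / (1 - e)) * (N:ℝ) ^ (p * σ - 1) := mul_nonneg hY hX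
        have h2 : 0 ≤ C3 ^ p * (N:ℝ) ^ (p * σ - 1) := mul_nonneg hZ hX
        nlinarith
    _ = _ := by ring

end

end Pool.Agent.K3h81.NB
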